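import Mathlib

set_option autoImplicit false

open MeasureTheory Set Filter Topology Complex
open scoped ENNReal NNReal BoundedContinuousFunction ComplexConjugate

namespace Pool.Agent.Helper977.L1Semi

/-- Average of a real function over `[-(n+1), n+1]`. -/
noncomputable def av (n : ℕ) (f : ℝ → ℝ) : ℝ :=
  (2 * ((n : ℝ) + 1))⁻¹ * ∫ t in (-((n : ℝ) + 1))..((n : ℝ) + 1), f t

/-- Average of a complex function over `[-(n+1), n+1]`. -/
noncomputable def cav (n : ℕ) (f : ℝ → ℂ) : ℂ :=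
  (((2 * ((n : ℝ) + 1))⁻¹ : ℝ) : ℂ) * ∫ t in (-((n : ℝ) + 1))..((n : ℝ) + 1), f t

theorem av_mono (n : ℕ) {f g : ℝ → ℝ} (hf : Continuous f) (hg : Continuous g)
    (h : ∀ t, f t ≤ g t) : av n f ≤ av n g := by
  unfold av
  have hn : (0 : ℝ) < (n : ℝ) + 1 := by positivity
  have : ∫ t in (-((n : ℝ) + 1))..((n : ℝ) + 1), f t ≤ ∫ t in (-((n : ℝ) + 1))..((n : ℝ) + 1), g t :=
    intervalIntegral.integral_mono_on (by linarith) (hf.intervalIntegrable _ _)
      (hg.intervalIntegrable _ _) (fun t _ => h t)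
  gcongr

theorem av_const (n : ℕ) (c : ℝ) : av n (fun _ => c) = c := by
  unfold av
  have hn : (0 : ℝ) < (n : ℝ) + 1 := by positivity
  rw [intervalIntegral.integral_const, smul_eq_mul]
  field_simp
  ring

theorem av_add (n : ℕ) {f g : ℝ → ℝ} (hf : Continuous f) (hg : Continuous g) :
    av n (fun t => f t + g t) = av n f + av n g := by
  unfold av
  rw [intervalIntegral.integral_add (hf.intervalIntegrable _ _) (hg.intervalIntegrable _ _)]
  ring

theorem av_mul_const (n : ℕ) (c : ℝ) (f : ℝ → ℝ) : av n (fun t => c * f t) = c * av n f := by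
  unfold av
  rw [intervalIntegral.integral_const_mul]
  ring

theorem av_nonneg (n : ℕ) {f : ℝ → ℝ} (h : ∀ t, 0 ≤ f t) : 0 ≤ av n f := by
  unfold av
  have hn : (0 : ℝ) < (n : ℝ) + 1 := by positivity
  have := intervalIntegral.integral_nonneg (μ := volume)
    (show -((n : ℝ) + 1) ≤ (n : ℝ) + 1 by linarith) (fun t _ => h t)
  positivity

theorem norm_cav_le (n : ℕ) (f : ℝ → ℂ) : ‖cav n f‖ ≤ av n (fun t => ‖f t‖) := by
  unfold cav av
  have hn : (0 : ℝ) < (n : ℝ) + 1 := by positivity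
  rw [norm_mul, Complex.norm_real, Real.norm_of_nonneg (by positivity)]
  have := intervalIntegral.norm_integral_le_integral_norm (μ := volume) (f := f)
    (show -((n : ℝ) + 1) ≤ (n : ℝ) + 1 by linarith)
  gcongr

theorem cav_add (n : ℕ) {f g : ℝ → ℂ} (hf : Continuous f) (hg : Continuous g) :
    cav n (fun t => f t + g t) = cav n f + cav n g := by
  unfold cav
  rw [intervalIntegral.integral_add (hf.intervalIntegrable _ _) (hg.intervalIntegrable _ _)]
  ring

theorem cav_sub (n : ℕ) {f g : ℝ → ℂ} (hf : Continuous f) (hg : Continuous g) :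
    cav n (fun t => f t - g t) = cav n f - cav n g := by
  unfold cav
  rw [intervalIntegral.integral_sub (hf.intervalIntegrable _ _) (hg.intervalIntegrable _ _)]
  ring

theorem cav_const_mul (n : ℕ) (c : ℂ) (f : ℝ → ℂ) : cav n (fun t => c * f t) = c * cav n f := by
  unfold cav
  rw [intervalIntegral.integral_const_mul]
  ring

theorem cav_const (n : ℕ) (c : ℂ) : cav n (fun _ => c) = c := by
  unfold cav
  have hn : (0 : ℝ) < (n : ℝ) + 1 := by positivity
  have hn' : ((n : ℂ) + 1) ≠ 0 := by exact_mod_cast hn.ne'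
  rw [intervalIntegral.integral_const]
  simp only [sub_neg_eq_add, real_smul]
  push_cast
  field_simp
  ring

/-- Continuous functions with vanishing mean modulus. -/
def Null (h : ℝ → ℂ) : Prop :=
  Continuous h ∧ Tendsto (fun n : ℕ => av n (fun t => ‖h t‖)) atTop (𝓝 0)

theorem Null.of_le {h k : ℝ → ℂ} (hh : Null h) (hk : Continuous k) {C : ℝ}
    (hle : ∀ t, ‖k t‖ ≤ C * ‖h t‖) : Null k := by
  refine ⟨hk, ?_⟩
  have h1 : Tendsto (fun n : ℕ => C * av n (fun t => ‖h t‖)) atTop (𝓝 0) := by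
    simpa using hh.2.const_mul C
  refine squeeze_zero (fun n => av_nonneg n fun t => norm_nonneg _) (fun n => ?_) h1
  rw [← av_mul_const]
  exact av_mono n hk.norm (continuous_const.mul hh.1.norm) hle

theorem Null.add {h k : ℝ → ℂ} (hh : Null h) (hk : Null k) : Null (fun t => h t + k t) := by
  refine ⟨hh.1.add hk.1, ?_⟩
  have h1 : Tendsto (fun n : ℕ => av n (fun t => ‖h t‖) + av n (fun t => ‖k t‖)) atTop (𝓝 0) := by
    simpa using hh.2.add hk.2
  refine squeeze_zero (fun n => av_nonneg n fun t => norm_nonneg _) (fun n => ?_) h1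
  rw [← av_add n hh.1.norm hk.1.norm]
  exact av_mono n (hh.1.add hk.1).norm (hh.1.norm.add hk.1.norm) (fun t => norm_add_le _ _)

theorem Null.mul {h k : ℝ → ℂ} (hh : Null h) (hk : Continuous k) {C : ℝ}
    (hC : ∀ t, ‖k t‖ ≤ C) : Null (fun t => h t * k t) := by
  apply hh.of_le (hh.1.mul hk) (C := C)
  intro t
  show ‖h t * k t‖ ≤ C * ‖h t‖
  rw [norm_mul, mul_comm]
  exact mul_le_mul_of_nonneg_right (hC t) (norm_nonneg _)

theorem Null.const_mul {h : ℝ → ℂ} (hh : Null h) (c : ℂ) : Null (fun t => c * h t) := by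
  apply hh.of_le (continuous_const.mul hh.1) (C := ‖c‖)
  intro t
  show ‖c * h t‖ ≤ ‖c‖ * ‖h t‖
  rw [norm_mul]

theorem Null.conj {h : ℝ → ℂ} (hh : Null h) : Null (fun t => conj (h t)) := by
  apply hh.of_le (Complex.continuous_conj.comp hh.1) (C := 1)
  intro t
  show ‖conj (h t)‖ ≤ 1 * ‖h t‖
  rw [RCLike.norm_conj, one_mul]

theorem Null.neg {h : ℝ → ℂ} (hh : Null h) : Null (fun t => h (-t)) := by
  refine ⟨hh.1.comp continuous_neg, ?_⟩
  have : ∀ n : ℕ, av n (fun t => ‖h (-t)‖) = av n (fun t => ‖h t‖) := by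
    intro n
    unfold av
    rw [intervalIntegral.integral_comp_neg (f := fun t => ‖h t‖), neg_neg]
  simp_rw [this]
  exact hh.2

theorem Null.zero : Null (fun _ => 0) := by
  refine ⟨continuous_const, ?_⟩
  simp only [norm_zero, av_const]
  exact tendsto_const_nhds

theorem Null.cav {h : ℝ → ℂ} (hh : Null h) : Tendsto (fun n => cav n h) atTop (𝓝 0) :=
  squeeze_zero_norm (fun n => norm_cav_le n h) hh.2

/-- Averages of the square control averages. -/
theorem Null.of_sq {h : ℝ → ℂ} (hc : Continuous h)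
    (h2 : Tendsto (fun n : ℕ => av n (fun t => ‖h t‖ ^ 2)) atTop (𝓝 0)) : Null h := by
  refine ⟨hc, ?_⟩
  rw [Metric.tendsto_atTop]
  intro ε hε
  obtain ⟨N, hN⟩ := Metric.tendsto_atTop.1 h2 (ε ^ 2 / 2) (by positivity)
  refine ⟨N, fun n hn => ?_⟩
  have h3 := hN n hn
  rw [Real.dist_eq, sub_zero] at h3 ⊢
  have h4 := (abs_lt.1 h3).2
  rw [abs_of_nonneg (av_nonneg n fun t => norm_nonneg _)]
  have h5 : av n (fun t => ‖h t‖) ≤ av n (fun t => ε / 2 + (2 * ε)⁻¹ * ‖h t‖ ^ 2) := by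
    apply av_mono n hc.norm (by fun_prop)
    intro t
    have : 0 ≤ (‖h t‖ - ε) ^ 2 := sq_nonneg _
    have e : ε / 2 + (2 * ε)⁻¹ * ‖h t‖ ^ 2 - ‖h t‖ = (2 * ε)⁻¹ * (‖h t‖ - ε) ^ 2 := by
      field_simp; ring
    have : 0 ≤ (2 * ε)⁻¹ * (‖h t‖ - ε) ^ 2 := by positivity
    linarith
  rw [av_add n continuous_const (by fun_prop), av_const, av_mul_const] at h5
  refine h5.trans_lt ?_
  have h6 : (2 * ε)⁻¹ * av n (fun t => ‖h t‖ ^ 2) < (2 * ε)⁻¹ * (ε ^ 2 / 2) := by gcongr
  have h7 : (2 * ε)⁻¹ * (ε ^ 2 / 2) = ε / 4 := by field_simp; ring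
  linarith

/-- Shifting a null function. -/
theorem Null.shift {h : ℝ → ℂ} (hh : Null h) {C : ℝ} (hC : ∀ t, ‖h t‖ ≤ C) (s : ℝ) :
    Null (fun t => h (t + s)) := by
  have hcs : Continuous fun t => h (t + s) := hh.1.comp (continuous_id.add continuous_const)
  refine ⟨hcs, ?_⟩
  have h1 : Tendsto (fun n : ℕ => av n (fun t => ‖h t‖) + |s| * C * ((n : ℝ) + 1)⁻¹) atTop (𝓝 0) := by
    have h2 : Tendsto (fun n : ℕ => ((n : ℝ) + 1)⁻¹) atTop (𝓝 0) := by
      simpa using tendsto_one_div_add_atTop_nhds_zero_nat (𝕜 := ℝ)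
    simpa using hh.2.add (h2.const_mul (|s| * C))
  refine squeeze_zero (fun n => av_nonneg n fun t => norm_nonneg _) (fun n => ?_) h1
  unfold av
  have hn : (0 : ℝ) < (n : ℝ) + 1 := by positivity
  rw [intervalIntegral.integral_comp_add_right (f := fun t => ‖h t‖)]
  set T : ℝ := (n : ℝ) + 1 with hT
  have hint : ∀ a b : ℝ, IntervalIntegrable (fun t => ‖h t‖) volume a b :=
    fun a b => hh.1.norm.intervalIntegrable a b
  have e1 : ∫ t in (-T + s)..(T + s), ‖h t‖ =
      (∫ t in (-T)..T, ‖h t‖) + (∫ t in T..(T + s), ‖h t‖) - ∫ t in (-T)..(-T + s), ‖h t‖ := by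
    have k1 := intervalIntegral.integral_add_adjacent_intervals (hint (-T) T) (hint T (T + s))
    have k2 := intervalIntegral.integral_add_adjacent_intervals (hint (-T) (-T + s))
      (hint (-T + s) (T + s))
    linarith
  have b1 : ∀ a : ℝ, |∫ t in a..(a + s), ‖h t‖| ≤ C * |s| := by
    intro a
    have := intervalIntegral.norm_integral_le_of_norm_le_const (a := a) (b := a + s)
      (f := fun t => ‖h t‖) (C := C) (fun t _ => by rw [norm_norm]; exact hC t)
    rwa [Real.norm_eq_abs, add_sub_cancel_left] at this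
  have b2 := (abs_le.1 (b1 T)).2
  have b3 := (abs_le.1 (b1 (-T))).1
  rw [e1]
  have e2 : (2 * T)⁻¹ * ((∫ t in (-T)..T, ‖h t‖) + (∫ t in T..(T + s), ‖h t‖) -
      ∫ t in (-T)..(-T + s), ‖h t‖) ≤ (2 * T)⁻¹ * ((∫ t in (-T)..T, ‖h t‖) + 2 * (C * |s|)) := by
    have : 0 ≤ (2 * T)⁻¹ := by positivity
    apply mul_le_mul_of_nonneg_left _ this
    linarith
  refine e2.trans (le_of_eq ?_)
  field_simp

end Pool.Agent.Helper977.L1Semi
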