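import Mathlib
import Pool.Agent.Helper977.L1Semi.AP1

set_option autoImplicit false

open MeasureTheory Set Filter Topology Complex
open scoped ENNReal NNReal BoundedContinuousFunction ComplexConjugate

namespace Pool.Agent.Helper977.L1Semi

/-- Translates of a bounded continuous function. -/
noncomputable def tr (s : ℝ) (p : ℝ →ᵇ ℂ) : ℝ →ᵇ ℂ :=
  p.compContinuous ⟨fun t => t + s, by fun_prop⟩

@[simp] theorem tr_apply (s : ℝ) (p : ℝ →ᵇ ℂ) (t : ℝ) : tr s p t = p (t + s) := rfl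

/-- Almost periodic functions (Bochner). -/
def AP (p : ℝ →ᵇ ℂ) : Prop := TotallyBounded (range fun s => tr s p)

theorem AP.of_compact {p : ℝ →ᵇ ℂ} {K : Set (ℝ →ᵇ ℂ)} (hK : IsCompact K)
    (h : ∀ s, tr s p ∈ K) : AP p := by
  apply hK.totallyBounded.subset
  rintro _ ⟨s, rfl⟩
  exact h s

theorem AP.compact {p : ℝ →ᵇ ℂ} (hp : AP p) : ∃ K : Set (ℝ →ᵇ ℂ), IsCompact K ∧ ∀ s, tr s p ∈ K :=
  ⟨closure (range fun s => tr s p), hp.closure.isCompact_of_isClosed isClosed_closure,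
    fun s => subset_closure ⟨s, rfl⟩⟩

theorem AP.approx {p : ℝ →ᵇ ℂ} (hp : AP p) {ε : ℝ} (hε : 0 < ε) :
    ∃ S : Finset ℝ, ∀ r, ∃ s ∈ S, ∀ t, ‖p (t + r) - p (t + s)‖ < ε := by
  classical
  obtain ⟨F, hF1, hF2, hF3⟩ := Metric.finite_approx_of_totallyBounded hp ε hε
  have hF1' : ∀ y ∈ F, ∃ s, tr s p = y := fun y hy => hF1 hy
  choose! σ hσ using hF1'
  refine ⟨hF2.toFinset.image σ, fun r => ?_⟩
  have hr : tr r p ∈ ⋃ y ∈ F, Metric.ball y ε := hF3 ⟨r, rfl⟩
  simp only [mem_iUnion] at hr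
  obtain ⟨y, hy, hyr⟩ := hr
  refine ⟨σ y, Finset.mem_image_of_mem σ (hF2.mem_toFinset.2 hy), fun t => ?_⟩
  have h1 := hσ y hy
  rw [← h1, Metric.mem_ball] at hyr
  have h2 := (BoundedContinuousFunction.dist_coe_le_dist (f := tr r p) (g := tr (σ y) p) t).trans_lt hyr
  rw [dist_eq_norm] at h2
  exact h2

theorem AP.add {p q : ℝ →ᵇ ℂ} (hp : AP p) (hq : AP q) : AP (p + q) := by
  obtain ⟨K, hK, hKp⟩ := hp.compact
  obtain ⟨L, hL, hLq⟩ := hq.compact
  refine AP.of_compact ((hK.prod hL).image (f := fun z => z.1 + z.2) (by fun_prop)) fun s => ?_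
  exact ⟨(tr s p, tr s q), ⟨hKp s, hLq s⟩, rfl⟩

theorem AP.mul {p q : ℝ →ᵇ ℂ} (hp : AP p) (hq : AP q) : AP (p * q) := by
  obtain ⟨K, hK, hKp⟩ := hp.compact
  obtain ⟨L, hL, hLq⟩ := hq.compact
  refine AP.of_compact ((hK.prod hL).image (f := fun z => z.1 * z.2) (by fun_prop)) fun s => ?_
  exact ⟨(tr s p, tr s q), ⟨hKp s, hLq s⟩, rfl⟩

theorem AP.smul {p : ℝ →ᵇ ℂ} (hp : AP p) (c : ℂ) : AP (c • p) := by
  obtain ⟨K, hK, hKp⟩ := hp.compact
  refine AP.of_compact (hK.image (f := fun z => c • z) (by fun_prop)) fun s => ?_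
  exact ⟨tr s p, hKp s, rfl⟩

theorem AP.neg' {p : ℝ →ᵇ ℂ} (hp : AP p) : AP (-p) := by
  have := hp.smul (-1)
  rwa [neg_one_smul] at this

theorem AP.sub {p q : ℝ →ᵇ ℂ} (hp : AP p) (hq : AP q) : AP (p - q) := by
  rw [sub_eq_add_neg]
  exact hp.add hq.neg'

theorem AP.star {p : ℝ →ᵇ ℂ} (hp : AP p) : AP (Star.star p) := by
  obtain ⟨K, hK, hKp⟩ := hp.compact
  have hc : Continuous (fun z : ℝ →ᵇ ℂ => Star.star z) := continuous_star
  refine AP.of_compact (hK.image hc) fun s => ?_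
  exact ⟨tr s p, hKp s, rfl⟩

/-- Reflection. -/
noncomputable def rfn (p : ℝ →ᵇ ℂ) : ℝ →ᵇ ℂ := p.compContinuous ⟨fun t => -t, by fun_prop⟩

@[simp] theorem rfn_apply (p : ℝ →ᵇ ℂ) (t : ℝ) : rfn p t = p (-t) := rfl

theorem continuous_rfn : Continuous rfn := by
  have : LipschitzWith 1 rfn := by
    apply LipschitzWith.of_dist_le_mul
    intro p q
    rw [NNReal.coe_one, one_mul, BoundedContinuousFunction.dist_le dist_nonneg]
    intro t
    exact BoundedContinuousFunction.dist_coe_le_dist (-t)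
  exact this.continuous

theorem AP.rfn {p : ℝ →ᵇ ℂ} (hp : AP p) : AP (rfn p) := by
  obtain ⟨K, hK, hKp⟩ := hp.compact
  refine AP.of_compact (hK.image (f := L1Semi.rfn) continuous_rfn) fun s => ?_
  refine ⟨tr (-s) p, hKp _, ?_⟩
  ext t
  show p (-t + -s) = p (-(t + s))
  congr 1; ring

theorem AP.one : AP 1 := by
  refine AP.of_compact (isCompact_singleton (x := (1 : ℝ →ᵇ ℂ))) fun s => ?_
  rw [mem_singleton_iff]
  ext t
  rfl

theorem AP.zero : AP 0 := by
  refine AP.of_compact (isCompact_singleton (x := (0 : ℝ →ᵇ ℂ))) fun s => ?_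
  rw [mem_singleton_iff]
  ext t
  rfl

/-- The exponential with frequency `x`. -/
noncomputable def ex (x : ℝ) : ℝ →ᵇ ℂ :=
  BoundedContinuousFunction.ofNormedAddCommGroup (fun t : ℝ => cexp (t * x * I))
    (by fun_prop) 1 (fun t => by
      have : (t : ℂ) * x * I = ((t * x : ℝ) : ℂ) * I := by push_cast; ring
      rw [this, Complex.norm_exp_ofReal_mul_I])

theorem ex_apply (x t : ℝ) : ex x t = cexp (t * x * I) := rfl

theorem norm_ex_le (x : ℝ) : ‖ex x‖ ≤ 1 := by
  rw [BoundedContinuousFunction.norm_le zero_le_one]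
  intro t
  have : (t : ℂ) * x * I = ((t * x : ℝ) : ℂ) * I := by push_cast; ring
  rw [ex_apply, this, Complex.norm_exp_ofReal_mul_I]

theorem tr_ex (s x : ℝ) : tr s (ex x) = cexp (s * x * I) • ex x := by
  ext t
  show cexp ((t + s : ℝ) * x * I) = cexp (s * x * I) * cexp (t * x * I)
  rw [← Complex.exp_add]
  congr 1
  push_cast; ring

/-- `tr s` as a continuous linear map. -/
noncomputable def trL (s : ℝ) : (ℝ →ᵇ ℂ) →L[ℂ] (ℝ →ᵇ ℂ) :=
  LinearMap.mkContinuous
    { toFun := tr s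
      map_add' := fun p q => rfl
      map_smul' := fun c p => rfl } 1 (fun p => by
      rw [one_mul, BoundedContinuousFunction.norm_le (norm_nonneg _)]
      intro t
      exact p.norm_coe_le_norm (t + s))

theorem trL_apply (s : ℝ) (p : ℝ →ᵇ ℂ) : trL s p = tr s p := rfl

theorem AP.dsum {ι : Type*} {c : ι → ℂ} (hc : Summable fun i => ‖c i‖) (x : ι → ℝ) :
    AP (∑' i, c i • ex (x i)) := by
  have hsum : ∀ z : ι → ℂ, (∀ i, ‖z i‖ ≤ 1) → ∀ i, ‖(c i * z i) • ex (x i)‖ ≤ ‖c i‖ := by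
    intro z hz i
    rw [norm_smul, norm_mul]
    calc ‖c i‖ * ‖z i‖ * ‖ex (x i)‖ ≤ ‖c i‖ * 1 * 1 := by
          gcongr
          · exact hz i
          · exact norm_ex_le _
      _ = ‖c i‖ := by ring
  have hK : IsCompact (Set.pi univ fun _ : ι => Metric.closedBall (0 : ℂ) 1) :=
    isCompact_univ_pi fun _ => isCompact_closedBall 0 1
  have hcont : ContinuousOn (fun z : ι → ℂ => ∑' i, (c i * z i) • ex (x i))
      (Set.pi univ fun _ : ι => Metric.closedBall (0 : ℂ) 1) := by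
    apply continuousOn_tsum (u := fun i => ‖c i‖)
    · intro i
      fun_prop
    · exact hc
    · intro i z hz
      apply hsum z
      intro j
      have := hz j (mem_univ j)
      rwa [mem_closedBall_zero_iff] at this
  refine AP.of_compact (hK.image_of_continuousOn hcont) fun s => ?_
  refine ⟨fun i => cexp (s * x i * I), ?_, ?_⟩
  · intro i _
    rw [mem_closedBall_zero_iff]
    have : (s : ℂ) * x i * I = ((s * x i : ℝ) : ℂ) * I := by push_cast; ring
    show ‖cexp (s * x i * I)‖ ≤ 1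
    rw [this, Complex.norm_exp_ofReal_mul_I]
  · have hs : Summable fun i => c i • ex (x i) := by
      apply Summable.of_norm_bounded hc
      intro i
      have := hsum (fun _ => 1) (by simp) i
      simpa using this
    simp only
    rw [← trL_apply, (trL s).map_tsum hs]
    congr 1
    ext1 i
    rw [(trL s).map_smul, trL_apply, tr_ex, smul_smul]

/-- Almost periodic functions are determined up to null functions. -/
theorem AP.eq_zero {p : ℝ →ᵇ ℂ} (hp : AP p) (hn : Null p) : p = 0 := by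
  ext t₀
  rw [BoundedContinuousFunction.coe_zero, Pi.zero_apply]
  by_contra hne
  have hpos : 0 < ‖p t₀‖ := norm_pos_iff.2 hne
  obtain ⟨S, hS⟩ := hp.approx (show 0 < ‖p t₀‖ / 2 by positivity)
  have hb : ∀ t, ‖p t‖ ≤ ‖p‖ := fun t => p.norm_coe_le_norm t
  -- every translate is close to one of finitely many
  have key : ∀ r, ‖p t₀‖ / 2 ≤ ∑ s ∈ S, ‖p (r + (t₀ - s))‖ := by
    intro r
    obtain ⟨s, hs, hsr⟩ := hS r
    have h1 := hsr (t₀ - s)
    have e1 : t₀ - s + r = r + (t₀ - s) := by ring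
    have e2 : t₀ - s + s = t₀ := by ring
    rw [e1, e2] at h1
    have h2 : ‖p t₀‖ ≤ ‖p (r + (t₀ - s))‖ + ‖p (r + (t₀ - s)) - p t₀‖ := by
      have : p t₀ = p (r + (t₀ - s)) - (p (r + (t₀ - s)) - p t₀) := by ring
      nth_rw 1 [this]
      exact norm_sub_le _ _
    have h3 : ‖p (r + (t₀ - s))‖ ≤ ∑ s ∈ S, ‖p (r + (t₀ - s))‖ :=
      Finset.single_le_sum (f := fun s => ‖p (r + (t₀ - s))‖) (fun i _ => norm_nonneg _) hs
    linarith
  have hlim : Tendsto (fun n : ℕ => ∑ s ∈ S, av n (fun r => ‖p (r + (t₀ - s))‖)) atTop (𝓝 0) := by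
    have : Tendsto (fun n : ℕ => ∑ s ∈ S, av n (fun r => ‖p (r + (t₀ - s))‖)) atTop
        (𝓝 (∑ s ∈ S, (0 : ℝ))) :=
      tendsto_finsetSum _ fun s _ => (hn.shift hb (t₀ - s)).2
    simpa using this
  have hle : ∀ n : ℕ, ‖p t₀‖ / 2 ≤ ∑ s ∈ S, av n (fun r => ‖p (r + (t₀ - s))‖) := by
    intro n
    have h1 : av n (fun r => ∑ s ∈ S, ‖p (r + (t₀ - s))‖) =
        ∑ s ∈ S, av n (fun r => ‖p (r + (t₀ - s))‖) := by
      unfold av
      rw [intervalIntegral.integral_finsetSum, Finset.mul_sum]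
      intro s _
      apply Continuous.intervalIntegrable
      exact (p.continuous.comp (continuous_id.add continuous_const)).norm
    rw [← h1, ← av_const n (‖p t₀‖ / 2)]
    apply av_mono n continuous_const _ key
    apply continuous_finsetSum
    intro s _
    exact (p.continuous.comp (continuous_id.add continuous_const)).norm
  have := ge_of_tendsto' hlim hle
  linarith

end Pool.Agent.Helper977.L1Semi
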