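import Mathlib
import Pool.Agent.Helper977.L1Semi.AP2

set_option autoImplicit false

open MeasureTheory Set Filter Topology Complex
open scoped ENNReal NNReal BoundedContinuousFunction ComplexConjugate

namespace Pool.Agent.Helper977.L1Semi

theorem atoms_countable (μ : Measure ℝ) [IsFiniteMeasure μ] : {x | μ {x} ≠ 0}.Countable := by
  have h := Measure.countable_meas_pos_of_disjoint_iUnion (μ := μ) (As := fun x : ℝ => {x})
    (fun x => measurableSet_singleton x) (fun x y hxy => by
      simp only [Function.onFun, disjoint_singleton]; exact hxy)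
  refine h.mono ?_
  intro x hx
  exact pos_iff_ne_zero.2 hx

theorem atoms_summable (μ : Measure ℝ) [IsFiniteMeasure μ] {S : Set ℝ} (hS : S.Countable) :
    Summable fun a : S => μ.real {(a : ℝ)} := by
  apply ENNReal.summable_toReal
  have : Countable S := hS.to_subtype
  rw [← measure_iUnion]
  · exact (measure_lt_top _ _).ne
  · intro x y hxy
    simp only [Function.onFun, disjoint_singleton]
    exact fun h => hxy (Subtype.ext h)
  · exact fun x => measurableSet_singleton _

theorem cont_charFun (μ : Measure ℝ) [IsFiniteMeasure μ] : Continuous (charFun μ) := by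
  fun_prop

theorem sinc_tendsto {x : ℝ} (hx : x ≠ 0) :
    Tendsto (fun n : ℕ => Real.sinc (((n : ℝ) + 1) * x)) atTop (𝓝 0) := by
  have h1 : Tendsto (fun n : ℕ => |x|⁻¹ * (1 / ((n : ℝ) + 1))) atTop (𝓝 0) := by
    simpa using (tendsto_one_div_add_atTop_nhds_zero_nat (𝕜 := ℝ)).const_mul |x|⁻¹
  apply squeeze_zero_norm _ h1
  intro n
  have hn : (0 : ℝ) < (n : ℝ) + 1 := by positivity
  have hx' : 0 < |x| := abs_pos.2 hx
  rw [Real.sinc_of_ne_zero (mul_ne_zero hn.ne' hx), Real.norm_eq_abs, abs_div, abs_mul,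
    abs_of_pos hn]
  have := Real.abs_sin_le_one (((n : ℝ) + 1) * x)
  rw [div_le_iff₀ (by positivity)]
  have e : |x|⁻¹ * (1 / ((n : ℝ) + 1)) * (((n : ℝ) + 1) * |x|) = 1 := by field_simp
  rw [e]; exact this

/-- The mean of a characteristic function is the mass of the origin. -/
theorem cav_charFun (μ : Measure ℝ) [IsFiniteMeasure μ] :
    Tendsto (fun n : ℕ => cav n (charFun μ)) atTop (𝓝 (μ.real {0} : ℂ)) := by
  have h1 : ∀ n : ℕ, cav n (charFun μ) = ((∫ x, Real.sinc (((n : ℝ) + 1) * x) ∂μ : ℝ) : ℂ) := by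
    intro n
    have hn : (0 : ℝ) < (n : ℝ) + 1 := by positivity
    unfold cav
    rw [integral_charFun_Icc hn]
    have hn' : ((n : ℂ) + 1) ≠ 0 := by exact_mod_cast hn.ne'
    push_cast
    field_simp
  simp_rw [h1]
  have h2 : Tendsto (fun n : ℕ => ∫ x, Real.sinc (((n : ℝ) + 1) * x) ∂μ) atTop
      (𝓝 (∫ x, ({0} : Set ℝ).indicator (fun _ => (1 : ℝ)) x ∂μ)) := by
    apply tendsto_integral_of_dominated_convergence (fun _ => (1 : ℝ))
    · intro n
      exact (Real.continuous_sinc.comp (continuous_const.mul continuous_id)).aestronglyMeasurable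
    · exact integrable_const _
    · intro n
      exact ae_of_all _ fun x => Real.abs_sinc_le_one _
    · apply ae_of_all
      intro x
      by_cases hx : x = 0
      · subst hx
        simp
      · rw [indicator_of_notMem (by simpa using hx)]
        exact sinc_tendsto hx
  rw [integral_indicator_const _ (measurableSet_singleton 0), smul_eq_mul, mul_one] at h2
  exact (Complex.continuous_ofReal.tendsto _).comp h2

/-- Wiener's lemma for measures without atoms. -/
theorem null_charFun (μ : Measure ℝ) [IsFiniteMeasure μ] (h : ∀ x, μ {x} = 0) :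
    Null (charFun μ) := by
  apply Null.of_sq (cont_charFun μ)
  set ν : Measure ℝ := μ.map (fun x => -1 * x) with hν
  have hνf : IsFiniteMeasure ν := Measure.isFiniteMeasure_map _ _
  set κ : Measure ℝ := μ ∗ ν with hκ
  have hκ0 : κ {0} = 0 := by
    rw [hκ, Measure.conv, Measure.map_apply (by fun_prop) (measurableSet_singleton 0),
      Measure.prod_apply ((measurableSet_singleton (0 : ℝ)).preimage (by fun_prop))]
    have : ∀ x : ℝ, ν (Prod.mk x ⁻¹' ((fun p : ℝ × ℝ => p.1 + p.2) ⁻¹' {0})) = 0 := by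
      intro x
      have e : Prod.mk x ⁻¹' ((fun p : ℝ × ℝ => p.1 + p.2) ⁻¹' {0}) = {-x} := by
        ext y
        simp only [mem_preimage, mem_singleton_iff]
        constructor <;> intro h <;> linarith
      rw [e, hν, Measure.map_apply (by fun_prop) (measurableSet_singleton _)]
      have e2 : (fun x : ℝ => -1 * x) ⁻¹' {-x} = {x} := by
        ext y
        simp
      rw [e2]; exact h x
    simp_rw [this]
    simp
  have hsq : ∀ t : ℝ, ((‖charFun μ t‖ ^ 2 : ℝ) : ℂ) = charFun κ t := by
    intro t
    rw [hκ, charFun_conv, hν, charFun_map_mul, neg_one_mul, charFun_neg]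
    rw [Complex.mul_conj, Complex.normSq_eq_norm_sq]
  have h1 : ∀ n : ℕ, ((av n (fun t => ‖charFun μ t‖ ^ 2) : ℝ) : ℂ) = cav n (charFun κ) := by
    intro n
    unfold av cav
    rw [Complex.ofReal_mul, ← intervalIntegral.integral_ofReal]
    congr 2
    ext t
    exact hsq t
  have h2 := cav_charFun κ
  rw [measureReal_def, hκ0] at h2
  simp_rw [← h1] at h2
  have h3 := (Complex.continuous_re.tendsto _).comp h2
  simpa [Function.comp_def] using h3

/-- The functions we work with: bounded, with a mean and an almost periodic part. -/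
def Good (f : ℝ → ℂ) : Prop :=
  Continuous f ∧ (∃ C : ℝ, ∀ t, ‖f t‖ ≤ C) ∧
    (∃ m : ℂ, Tendsto (fun n => cav n f) atTop (𝓝 m)) ∧
    ∃ p : ℝ →ᵇ ℂ, AP p ∧ Null (fun t => f t - p t)

theorem good_charFun (μ : Measure ℝ) [IsFiniteMeasure μ] : Good (charFun μ) := by
  refine ⟨cont_charFun μ, ⟨μ.real univ, fun t => norm_charFun_le t⟩, ⟨_, cav_charFun μ⟩, ?_⟩
  set S : Set ℝ := {x | μ {x} ≠ 0} with hS
  have hSc : S.Countable := atoms_countable μ
  have hsum : Summable fun a : S => ‖((μ.real {(a : ℝ)} : ℝ) : ℂ)‖ := by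
    have := atoms_summable μ hSc
    refine this.congr ?_
    intro a
    rw [Complex.norm_real, Real.norm_of_nonneg measureReal_nonneg]
  refine ⟨∑' a : S, ((μ.real {(a : ℝ)} : ℝ) : ℂ) • ex a, AP.dsum hsum _, ?_⟩
  have hs2 : Summable fun a : S => ((μ.real {(a : ℝ)} : ℝ) : ℂ) • ex a := by
    apply Summable.of_norm_bounded hsum
    intro a
    rw [norm_smul]
    exact mul_le_of_le_one_right (norm_nonneg _) (norm_ex_le _)
  have hrest : IsFiniteMeasure (μ.restrict Sᶜ) := inferInstance
  have hnull : Null (charFun (μ.restrict Sᶜ)) := by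
    apply null_charFun
    intro x
    rw [Measure.restrict_apply (measurableSet_singleton x)]
    by_cases hx : x ∈ S
    · have : ({x} ∩ Sᶜ : Set ℝ) = ∅ := by
        ext y
        simp only [mem_inter_iff, mem_singleton_iff, mem_compl_iff, mem_empty_iff_false, iff_false,
          not_and, not_not]
        rintro rfl
        exact hx
      rw [this]; simp
    · have hx' : μ {x} = 0 := by
        by_contra h
        exact hx h
      exact measure_mono_null inter_subset_left hx'
  convert! hnull using 2 with t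
  rw [charFun_apply_real, charFun_apply_real]
  have hint : Integrable (fun x : ℝ => cexp (t * x * I)) μ := by
    apply Integrable.mono' (g := fun _ => (1 : ℝ)) (integrable_const _)
    · exact (by fun_prop : Continuous fun x : ℝ => cexp (t * x * I)).aestronglyMeasurable
    · apply ae_of_all
      intro x
      have : (t : ℂ) * x * I = ((t * x : ℝ) : ℂ) * I := by push_cast; ring
      rw [this, Complex.norm_exp_ofReal_mul_I]
  rw [← integral_add_compl hSc.measurableSet hint,
    setIntegral_countable _ hSc hint.integrableOn]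
  have hev : (∑' a : S, ((μ.real {(a : ℝ)} : ℝ) : ℂ) • ex a) t =
      ∑' a : S, μ.real {(a : ℝ)} • cexp (t * (a : ℝ) * I) := by
    have := (BoundedContinuousFunction.evalCLM ℂ t).map_tsum hs2
    rw [BoundedContinuousFunction.evalCLM_apply] at this
    rw [this]
    congr 1
  rw [hev]
  ring

theorem Good.zero : Good (0 : ℝ → ℂ) := by
  refine ⟨continuous_const, ⟨0, by simp⟩, ⟨0, ?_⟩, 0, AP.zero, ?_⟩
  · have : ∀ n, cav n (0 : ℝ → ℂ) = 0 := fun n => cav_const n 0
    simp_rw [this]
    exact tendsto_const_nhds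
  · simpa using Null.zero

theorem Good.add {f g : ℝ → ℂ} (hf : Good f) (hg : Good g) : Good (f + g) := by
  obtain ⟨hf1, ⟨C, hC⟩, ⟨m, hm⟩, p, hp, hfp⟩ := hf
  obtain ⟨hg1, ⟨D, hD⟩, ⟨k, hk⟩, q, hq, hgq⟩ := hg
  refine ⟨hf1.add hg1, ⟨C + D, fun t => (norm_add_le _ _).trans (add_le_add (hC t) (hD t))⟩,
    ⟨m + k, ?_⟩, p + q, hp.add hq, ?_⟩
  · have : ∀ n, cav n (f + g) = cav n f + cav n g := fun n => cav_add n hf1 hg1
    simp_rw [this]
    exact hm.add hk
  · convert! hfp.add hgq using 2 with t
    simp only [Pi.add_apply, BoundedContinuousFunction.coe_add]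
    ring

theorem Good.smul {f : ℝ → ℂ} (hf : Good f) (c : ℂ) : Good (c • f) := by
  obtain ⟨hf1, ⟨C, hC⟩, ⟨m, hm⟩, p, hp, hfp⟩ := hf
  refine ⟨hf1.const_smul c, ⟨‖c‖ * C, fun t => ?_⟩, ⟨c * m, ?_⟩, c • p, hp.smul c, ?_⟩
  · rw [Pi.smul_apply, norm_smul]
    exact mul_le_mul_of_nonneg_left (hC t) (norm_nonneg _)
  · have : ∀ n, cav n (c • f) = c * cav n f := fun n => cav_const_mul n c f
    simp_rw [this]
    exact hm.const_mul c
  · convert! hfp.const_mul c using 2 with t
    simp only [Pi.smul_apply, BoundedContinuousFunction.coe_smul, smul_eq_mul]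
    ring

/-- Fourier–Stieltjes transforms of complex measures. -/
def BB : Submodule ℂ (ℝ → ℂ) :=
  Submodule.span ℂ {f | ∃ μ : Measure ℝ, IsFiniteMeasure μ ∧ f = charFun μ}

theorem good_of_BB {f : ℝ → ℂ} (hf : f ∈ BB) : Good f := by
  unfold BB at hf
  induction hf using Submodule.span_induction with
  | mem x h =>
    obtain ⟨μ, hμ, rfl⟩ := h
    exact good_charFun μ
  | zero => exact Good.zero
  | add x y _ _ hx hy => exact hx.add hy
  | smul a x _ hx => exact hx.smul a

theorem BB_charFun (μ : Measure ℝ) [IsFiniteMeasure μ] : charFun μ ∈ BB :=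
  Submodule.subset_span ⟨μ, inferInstance, rfl⟩

theorem BB_mul {f g : ℝ → ℂ} (hf : f ∈ BB) (hg : g ∈ BB) : f * g ∈ BB := by
  unfold BB at hf hg
  induction hf, hg using Submodule.span_induction₂ with
  | mem_mem x y hx hy =>
    obtain ⟨μ, hμ, rfl⟩ := hx
    obtain ⟨ν, hν, rfl⟩ := hy
    have : charFun μ * charFun ν = charFun (μ ∗ ν) := by
      ext t
      rw [charFun_conv]; rfl
    rw [this]
    exact BB_charFun _
  | zero_left y hy => rw [zero_mul]; exact BB.zero_mem
  | zero_right x hx => rw [mul_zero]; exact BB.zero_mem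
  | add_left x y z _ _ _ h1 h2 => rw [add_mul]; exact BB.add_mem h1 h2
  | add_right x y z _ _ _ h1 h2 => rw [mul_add]; exact BB.add_mem h1 h2
  | smul_left r x y _ _ h => rw [smul_mul_assoc]; exact BB.smul_mem _ h
  | smul_right r x y _ _ h => rw [mul_smul_comm]; exact BB.smul_mem _ h

theorem BB_conj {f : ℝ → ℂ} (hf : f ∈ BB) : (fun t => conj (f t)) ∈ BB := by
  unfold BB at hf
  induction hf using Submodule.span_induction with
  | mem x h =>
    obtain ⟨μ, hμ, rfl⟩ := h
    have hfm : IsFiniteMeasure (μ.map (fun x => -1 * x)) := Measure.isFiniteMeasure_map _ _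
    have : (fun t => conj (charFun μ t)) = charFun (μ.map (fun x => -1 * x)) := by
      ext t
      rw [charFun_map_mul, neg_one_mul, charFun_neg]
    rw [this]
    exact BB_charFun _
  | zero =>
    have : (fun t : ℝ => conj ((0 : ℝ → ℂ) t)) = 0 := by ext t; simp
    rw [this]; exact BB.zero_mem
  | add x y _ _ hx hy =>
    have : (fun t : ℝ => conj ((x + y) t)) = (fun t => conj (x t)) + fun t => conj (y t) := by
      ext t; simp
    rw [this]; exact BB.add_mem hx hy
  | smul a x _ hx =>
    have : (fun t : ℝ => conj ((a • x) t)) = (conj a) • fun t => conj (x t) := by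
      ext t; simp
    rw [this]; exact BB.smul_mem _ hx

theorem BB_comp_mul (c : ℝ) {f : ℝ → ℂ} (hf : f ∈ BB) : (fun t => f (c * t)) ∈ BB := by
  unfold BB at hf
  induction hf using Submodule.span_induction with
  | mem x h =>
    obtain ⟨μ, hμ, rfl⟩ := h
    have hfm : IsFiniteMeasure (μ.map (fun x => c * x)) := Measure.isFiniteMeasure_map _ _
    have : (fun t => charFun μ (c * t)) = charFun (μ.map (fun x => c * x)) := by
      ext t
      rw [charFun_map_mul]
    rw [this]
    exact BB_charFun _
  | zero => exact BB.zero_mem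
  | add x y _ _ hx hy => exact BB.add_mem hx hy
  | smul a x _ hx => exact BB.smul_mem a hx

end Pool.Agent.Helper977.L1Semi
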