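import Mathlib
import Pool.Agent.Helper977.L1Semi.AP3

set_option autoImplicit false

open MeasureTheory Set Filter Topology Complex
open scoped ENNReal NNReal BoundedContinuousFunction ComplexConjugate

namespace Pool.Agent.Helper977.L1Semi

theorem exists_lift {p : ℝ → ℂ} (hp : Continuous p) (h1 : ∀ t, ‖p t‖ = 1) :
    ∃ θ : ℝ → ℝ, Continuous θ ∧ ∀ t, p t = cexp (θ t * I) := by
  have hsc : IsSimplyConnected (univ : Set ℝ) := by
    unfold IsSimplyConnected
    have : ContractibleSpace (univ : Set ℝ) :=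
      (Homeomorph.Set.univ ℝ).contractibleSpace
    infer_instance
  obtain ⟨f, hf, hfe⟩ := Complex.exists_continuousOn_eqOn_exp_comp hsc isOpen_univ
    hp.continuousOn (by
      rintro ⟨t, -, ht⟩
      have := h1 t
      rw [ht, norm_zero] at this
      exact zero_ne_one this)
  have hfc : Continuous f := continuousOn_univ.1 hf
  refine ⟨fun t => (f t).im, Complex.continuous_im.comp hfc, fun t => ?_⟩
  have he : cexp (f t) = p t := hfe (mem_univ t)
  have hre : (f t).re = 0 := by
    have := h1 t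
    rw [← he, Complex.norm_exp] at this
    exact Real.exp_eq_one_iff _ |>.1 this
  rw [← he]
  congr 1
  apply Complex.ext <;> simp [hre]

theorem small_of_ne {D : ℝ → ℝ} (hD : Continuous D) {t₀ : ℝ} (h0 : D t₀ = 0)
    (hne : ∀ t, cexp (D t * I) ≠ -1) (t : ℝ) : |D t| < Real.pi := by
  by_contra hcon
  push Not at hcon
  have hc : Continuous fun s => |D s| := hD.abs
  have hmem : Real.pi ∈ Icc (|D t₀|) (|D t|) := by
    rw [h0, abs_zero]
    exact ⟨Real.pi_pos.le, hcon⟩
  have := mem_range_of_exists_le_of_exists_ge hc ⟨t₀, hmem.1⟩ ⟨t, hmem.2⟩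
  obtain ⟨s, hs⟩ := this
  apply hne s
  rcases abs_eq Real.pi_pos.le |>.1 hs with h | h
  · rw [h, Complex.exp_pi_mul_I]
  · rw [h]
    push_cast
    rw [neg_mul, Complex.exp_neg, Complex.exp_pi_mul_I]
    norm_num

theorem eq_zero_of_exp_eq_one {d : ℝ} (h : |d| < Real.pi) (he : cexp (d * I) = 1) : d = 0 := by
  rw [Complex.exp_eq_one_iff] at he
  obtain ⟨n, hn⟩ := he
  have h1 : (d : ℂ) = ((n * (2 * Real.pi) : ℝ) : ℂ) := by
    have h2 : (d : ℂ) * I = ((n * (2 * Real.pi) : ℝ) : ℂ) * I := by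
      rw [hn]; push_cast; ring
    exact mul_right_cancel₀ Complex.I_ne_zero h2
  have h2 : d = n * (2 * Real.pi) := by exact_mod_cast h1
  have h3 : n = 0 := by
    by_contra hn0
    have h4 : (1 : ℝ) ≤ |(n : ℝ)| := by
      have := Int.one_le_abs hn0
      exact_mod_cast this
    rw [h2, abs_mul, abs_of_pos (by positivity : (0 : ℝ) < 2 * Real.pi)] at h
    nlinarith [Real.pi_pos]
  rw [h2, h3]; simp

/-- Roots of an even unimodular almost periodic function are uniformly nearly constant. -/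
theorem root_bound {p : ℝ →ᵇ ℂ} (hp : AP p) (h1 : ∀ t, ‖p t‖ = 1) (heven : ∀ t, p (-t) = p t) :
    ∃ B : ℝ, ∀ n : ℕ, 0 < n → ∀ q : ℝ → ℂ, Continuous q → (∀ t, q t ^ n = p t) →
      ∃ ω : ℂ, ‖ω‖ = 1 ∧ ∀ t, ‖q t - ω‖ ≤ B / n := by
  obtain ⟨θ, hθ, hpθ⟩ := exists_lift p.continuous h1
  -- the lift is even
  have hθe : ∀ t, θ (-t) = θ t := by
    intro t
    have hD : Continuous fun t => θ t - θ (-t) := hθ.sub (hθ.comp continuous_neg)
    have hexp : ∀ t, cexp (((θ t - θ (-t) : ℝ) : ℂ) * I) = 1 := by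
      intro t
      push_cast
      rw [sub_mul, Complex.exp_sub, ← hpθ, ← hpθ, heven]
      have : p t ≠ 0 := by
        intro h0
        have := h1 t
        rw [h0, norm_zero] at this
        exact zero_ne_one this
      rw [div_self this]
    have := small_of_ne hD (t₀ := 0) (by simp) (fun t => by
      rw [hexp t]; norm_num) t
    have := eq_zero_of_exp_eq_one this (hexp t)
    linarith
  obtain ⟨S, hS⟩ := hp.approx zero_lt_one
  have hclose : ∀ r : ℝ, ∃ s ∈ S, |θ r - θ s| < Real.pi := by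
    intro r
    obtain ⟨s, hs, hrs⟩ := hS r
    refine ⟨s, hs, ?_⟩
    have hD : Continuous fun t => θ (t + r) - θ (t + s) :=
      (hθ.comp (continuous_id.add continuous_const)).sub
        (hθ.comp (continuous_id.add continuous_const))
    have := small_of_ne hD (t₀ := -(r + s) / 2) (by
      have e1 : -(r + s) / 2 + r = (r - s) / 2 := by ring
      have e2 : -(r + s) / 2 + s = -((r - s) / 2) := by ring
      rw [e1, e2, hθe, sub_self]) (fun t => by
      intro hbad
      have h2 := hrs t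
      push_cast at hbad
      rw [sub_mul, Complex.exp_sub, ← hpθ, ← hpθ] at hbad
      have hs0 : p (t + s) ≠ 0 := by
        intro h0
        have := h1 (t + s)
        rw [h0, norm_zero] at this
        exact zero_ne_one this
      rw [div_eq_iff hs0] at hbad
      rw [hbad] at h2
      have e3 : -1 * p (t + s) - p (t + s) = -2 * p (t + s) := by ring
      rw [e3, norm_mul, h1] at h2
      norm_num at h2) 0
    simpa using this
  -- a uniform bound of the lift
  set B : ℝ := (∑ s ∈ S, |θ s|) + Real.pi with hB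
  have hθb : ∀ r, |θ r| ≤ B := by
    intro r
    obtain ⟨s, hs, hrs⟩ := hclose r
    have h2 : |θ s| ≤ ∑ s ∈ S, |θ s| :=
      Finset.single_le_sum (f := fun s => |θ s|) (fun i _ => abs_nonneg _) hs
    have h3 : |θ r| ≤ |θ s| + |θ r - θ s| := by
      have : θ r = θ s + (θ r - θ s) := by ring
      nth_rw 1 [this]
      exact abs_add_le _ _
    rw [hB]; linarith
  refine ⟨B, fun n hn q hq hqn => ?_⟩
  have hn' : (0 : ℝ) < n := by exact_mod_cast hn
  have hn'' : (n : ℂ) ≠ 0 := by exact_mod_cast hn.ne'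
  set c : ℝ → ℂ := fun t => q t * cexp (((-(θ t / n) : ℝ) : ℂ) * I) with hc
  have hcc : Continuous c := by
    apply hq.mul
    fun_prop
  have hcn : ∀ t, c t ^ n = 1 := by
    intro t
    rw [hc]
    simp only
    rw [mul_pow, hqn, hpθ, ← Complex.exp_nat_mul, ← Complex.exp_add]
    have : (θ t : ℂ) * I + n * (((-(θ t / n) : ℝ) : ℂ) * I) = 0 := by
      push_cast
      field_simp
      ring
    rw [this, Complex.exp_zero]
  have hfin : {z : ℂ | z ^ n = 1}.Finite := by
    have : {z : ℂ | z ^ n = 1} ⊆ ((Polynomial.nthRootsFinset n (1 : ℂ)) : Set ℂ) := by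
      intro z hz
      rw [Finset.mem_coe, Polynomial.mem_nthRootsFinset hn]
      exact hz
    exact (Finset.finite_toSet _).subset this
  have hdisc : DiscreteTopology {z : ℂ | z ^ n = 1} := by
    have := hfin.to_subtype
    infer_instance
  have hconst : ∀ t, c t = c 0 := by
    intro t
    exact (isPreconnected_univ (α := ℝ)).constant_of_mapsTo (T := {z : ℂ | z ^ n = 1})
      hfin.isDiscrete hcc.continuousOn (fun s _ => hcn s) (mem_univ t) (mem_univ 0)
  have hc1 : ‖c 0‖ = 1 := by
    have h2 := congrArg norm (hcn 0)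
    rw [norm_pow, norm_one] at h2
    exact (pow_eq_one_iff_of_nonneg (norm_nonneg _) hn.ne').1 h2
  refine ⟨c 0, hc1, fun t => ?_⟩
  have hq' : q t = c 0 * cexp (((θ t / n : ℝ) : ℂ) * I) := by
    rw [← hconst t, hc]
    simp only
    rw [mul_assoc, ← Complex.exp_add]
    have : ((-(θ t / n) : ℝ) : ℂ) * I + ((θ t / n : ℝ) : ℂ) * I = 0 := by
      push_cast; ring
    rw [this, Complex.exp_zero, mul_one]
  have e1 : q t - c 0 = c 0 * (cexp (((θ t / n : ℝ) : ℂ) * I) - 1) := by rw [hq']; ring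
  rw [e1, norm_mul, hc1, one_mul]
  have h3 := Real.norm_exp_I_mul_ofReal_sub_one_le (x := θ t / n)
  rw [mul_comm] at h3
  refine h3.trans ?_
  rw [Real.norm_eq_abs, abs_div, abs_of_pos hn']
  exact div_le_div_of_nonneg_right (hθb t) hn'.le

/-! ### A Riemann–Lebesgue argument -/

theorem ae_zero_of_weak {Φ : ℕ → ℝ → ℂ} {G : ℝ → ℂ} (hΦ : ∀ n, Measurable (Φ n))
    (hb : ∀ n y, ‖Φ n y‖ ≤ 1) (hlim : ∀ y ∈ Ioo (0 : ℝ) 1, Tendsto (fun n => Φ n y) atTop (𝓝 (G y)))
    (hweak : ∀ g : ℝ → ℂ, Integrable g (volume.restrict (Ioo 0 1)) →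
      Tendsto (fun n => ∫ y in Ioo (0 : ℝ) 1, Φ n y * g y) atTop (𝓝 0)) :
    ∀ᵐ y ∂(volume.restrict (Ioo (0 : ℝ) 1)), G y = 0 := by
  have hae : ∀ᵐ y ∂(volume.restrict (Ioo (0 : ℝ) 1)),
      Tendsto (fun n => Φ n y) atTop (𝓝 (G y)) := by
    rw [ae_restrict_iff' measurableSet_Ioo]
    exact ae_of_all _ hlim
  have hGm : AEStronglyMeasurable G (volume.restrict (Ioo (0 : ℝ) 1)) :=
    aestronglyMeasurable_of_tendsto_ae atTop (fun n => (hΦ n).aestronglyMeasurable) hae
  have hGb : ∀ᵐ y ∂(volume.restrict (Ioo (0 : ℝ) 1)), ‖G y‖ ≤ 1 := by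
    filter_upwards [hae] with y hy
    exact le_of_tendsto hy.norm (Eventually.of_forall fun n => hb n y)
  have hGcm : AEStronglyMeasurable (fun y => conj (G y)) (volume.restrict (Ioo (0 : ℝ) 1)) :=
    Complex.continuous_conj.comp_aestronglyMeasurable hGm
  have hGi : Integrable (fun y => conj (G y)) (volume.restrict (Ioo (0 : ℝ) 1)) := by
    apply Integrable.mono' (g := fun _ => (1 : ℝ)) (integrable_const _) hGcm
    filter_upwards [hGb] with y hy
    rw [RCLike.norm_conj]; exact hy
  have h1 := hweak _ hGi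
  have h2 : Tendsto (fun n => ∫ y in Ioo (0 : ℝ) 1, Φ n y * conj (G y)) atTop
      (𝓝 (∫ y in Ioo (0 : ℝ) 1, G y * conj (G y))) := by
    apply tendsto_integral_of_dominated_convergence (fun _ => (1 : ℝ))
    · intro n
      exact (hΦ n).aestronglyMeasurable.mul hGcm
    · exact integrable_const _
    · intro n
      filter_upwards [hGb] with y hy
      rw [norm_mul, RCLike.norm_conj]
      exact mul_le_one₀ (hb n y) (norm_nonneg _) hy
    · filter_upwards [hae] with y hy
      exact hy.mul_const _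
  have h3 := tendsto_nhds_unique h1 h2
  have h4 : ∀ y, G y * conj (G y) = ((‖G y‖ ^ 2 : ℝ) : ℂ) := by
    intro y
    rw [Complex.mul_conj, Complex.normSq_eq_norm_sq]
  simp_rw [h4] at h3
  rw [integral_complex_ofReal] at h3
  have h5 : ∫ y in Ioo (0 : ℝ) 1, ‖G y‖ ^ 2 = 0 := by exact_mod_cast h3.symm
  rw [integral_eq_zero_iff_of_nonneg (fun y => by positivity)] at h5
  · filter_upwards [h5] with y hy
    simpa using hy
  · apply Integrable.mono' (g := fun _ => (1 : ℝ)) (integrable_const _)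
    · exact (hGm.norm.pow 2)
    · filter_upwards [hGb] with y hy
      rw [Real.norm_of_nonneg (by positivity)]
      exact pow_le_one₀ (norm_nonneg _) hy

/-- Riemann–Lebesgue for the exponentials. -/
theorem rl_Ioo {g : ℝ → ℂ} :
    Tendsto (fun w : ℝ => ∫ y in Ioo (0 : ℝ) 1, cexp (((y * w : ℝ) : ℂ) * I) * g y)
      (cocompact ℝ) (𝓝 0) := by
  have h := Real.tendsto_integral_exp_smul_cocompact (E := ℂ) ((Ioo (0 : ℝ) 1).indicator g)
  have hs : Tendsto (fun w : ℝ => (-(2 * Real.pi)⁻¹) * w) (cocompact ℝ) (cocompact ℝ) := by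
    have hne : (-(2 * Real.pi)⁻¹) ≠ 0 := neg_ne_zero.2 (inv_ne_zero (by positivity))
    exact (Homeomorph.mulLeft₀ _ hne).isClosedEmbedding.tendsto_cocompact
  refine (h.comp hs).congr fun w => ?_
  rw [Function.comp_apply, ← integral_indicator measurableSet_Ioo]
  congr 1
  ext y
  by_cases hy : y ∈ Ioo (0 : ℝ) 1
  · rw [indicator_of_mem hy, indicator_of_mem hy, Circle.smul_def, Real.fourierChar_apply,
      smul_eq_mul]
    congr 2
    push_cast
    have : (Real.pi : ℂ) ≠ 0 := by exact_mod_cast Real.pi_ne_zero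
    field_simp
  · rw [indicator_of_notMem hy, indicator_of_notMem hy, smul_zero]

/-- Continuous functions vanishing at infinity are null. -/
theorem Null.of_tendsto {K : ℝ → ℂ} (hK : Continuous K) {C : ℝ} (hC : ∀ t, ‖K t‖ ≤ C)
    (h : Tendsto K (cocompact ℝ) (𝓝 0)) : Null K := by
  refine ⟨hK, ?_⟩
  have h1 : ∀ n : ℕ, av n (fun t => ‖K t‖) =
      2⁻¹ * ∫ u in (-1 : ℝ)..1, ‖K (((n : ℝ) + 1) * u)‖ := by
    intro n
    have hn : (0 : ℝ) < (n : ℝ) + 1 := by positivity
    rw [intervalIntegral.integral_comp_mul_left (f := fun t => ‖K t‖) hn.ne']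
    unfold av
    rw [mul_neg, mul_one, smul_eq_mul, mul_inv]
    ring
  simp_rw [h1]
  have h2 : Tendsto (fun n : ℕ => ∫ u in (-1 : ℝ)..1, ‖K (((n : ℝ) + 1) * u)‖) atTop
      (𝓝 (∫ u in (-1 : ℝ)..1, (0 : ℝ))) := by
    apply intervalIntegral.tendsto_integral_filter_of_dominated_convergence (fun _ => C)
    · exact Eventually.of_forall fun n =>
        (hK.norm.comp (continuous_const.mul continuous_id)).aestronglyMeasurable
    · exact Eventually.of_forall fun n => ae_of_all _ fun u _ => by rw [norm_norm]; exact hC _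
    · exact intervalIntegrable_const
    · have hne : ∀ᵐ u : ℝ, u ≠ 0 := by
        simp [ae_iff]
      filter_upwards [hne] with u hu _
      have hcc : Tendsto (fun n : ℕ => ((n : ℝ) + 1) * u) atTop (cocompact ℝ) := by
        have h3 : Tendsto (fun n : ℕ => (n : ℝ) + 1) atTop (cocompact ℝ) :=
          (tendsto_natCast_atTop_atTop.atTop_add tendsto_const_nhds).mono_right
            atTop_le_cocompact
        have h4 : Tendsto (fun x : ℝ => x * u) (cocompact ℝ) (cocompact ℝ) :=
          (Homeomorph.mulRight₀ u hu).isClosedEmbedding.tendsto_cocompact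
        exact h4.comp h3
      have := (h.comp hcc).norm
      simpa using this
  simpa using h2.const_mul 2⁻¹

end Pool.Agent.Helper977.L1Semi
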