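import Mathlib
import Pool.Agent.Helper977.L1Semi.AP4

set_option autoImplicit false

open MeasureTheory Set Filter Topology Complex
open scoped ENNReal NNReal BoundedContinuousFunction ComplexConjugate Pointwise

namespace Pool.Agent.Helper977.L1Semi

theorem null_mul {f g : ℝ → ℂ} {p q : ℝ →ᵇ ℂ} (hf : Null fun t => f t - p t)
    (hg : Null fun t => g t - q t) (hgc : Continuous g) {C : ℝ} (hC : ∀ t, ‖g t‖ ≤ C) :
    Null fun t => f t * g t - (p * q) t := by
  have h1 := hf.mul hgc hC
  have h2 := hg.mul p.continuous (fun t => p.norm_coe_le_norm t)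
  convert! h1.add h2 using 2 with t
  simp only [BoundedContinuousFunction.coe_mul, Pi.mul_apply]
  ring

theorem null_pow {f : ℝ → ℂ} {p : ℝ →ᵇ ℂ} (hf : Null fun t => f t - p t) (hfc : Continuous f)
    (h1 : ∀ t, ‖f t‖ ≤ 1) (n : ℕ) : Null fun t => f t ^ n - (p ^ n) t := by
  induction n with
  | zero =>
    convert! Null.zero using 2 with t
    simp
  | succ n ih =>
    have := null_mul ih hf hfc h1
    convert! this using 2 with t

theorem ap_pow {p : ℝ →ᵇ ℂ} (hp : AP p) (n : ℕ) : AP (p ^ n) := by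
  induction n with
  | zero => rw [pow_zero]; exact AP.one
  | succ n ih => rw [pow_succ]; exact ih.mul hp

theorem ap_unique {f : ℝ → ℂ} {p q : ℝ →ᵇ ℂ} (hp : AP p) (hq : AP q)
    (h1 : Null fun t => f t - p t) (h2 : Null fun t => f t - q t) : p = q := by
  have h3 := h1.const_mul (-1)
  have h4 := h3.add h2
  have h5 : Null (p - q) := by
    convert! h4 using 2 with t
    simp only [Pi.sub_apply]
    ring
  exact sub_eq_zero.1 ((hp.sub hq).eq_zero h5)

/-- The exponential family. -/
noncomputable def ee (Ψ : ℝ → ℝ) (y t : ℝ) : ℂ := cexp (((y * Ψ t : ℝ) : ℂ) * I)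

theorem norm_ee (Ψ : ℝ → ℝ) (y t : ℝ) : ‖ee Ψ y t‖ = 1 := Complex.norm_exp_ofReal_mul_I _

theorem ee_conj (Ψ : ℝ → ℝ) (y t : ℝ) : ee Ψ y t * conj (ee Ψ y t) = 1 := by
  rw [Complex.mul_conj, Complex.normSq_eq_norm_sq, norm_ee]
  simp

theorem ee_pow (Ψ : ℝ → ℝ) (y t : ℝ) {n : ℕ} (hn : 0 < n) : ee Ψ (y / n) t ^ n = ee Ψ y t := by
  unfold ee
  rw [← Complex.exp_nat_mul]
  congr 1
  have : (n : ℂ) ≠ 0 := by exact_mod_cast hn.ne'
  push_cast
  field_simp

theorem ee_cont {Ψ : ℝ → ℝ} (hΨ : Continuous Ψ) (y : ℝ) : Continuous (ee Ψ y) := by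
  unfold ee
  fun_prop

/-- The almost periodic part of the exponential family. -/
theorem ap_part {Ψ : ℝ → ℝ} (heven : ∀ t, Ψ (-t) = Ψ t) {y : ℝ}
    (hB : ee Ψ y ∈ BB) : ∃ p : ℝ →ᵇ ℂ, AP p ∧ (Null fun t => ee Ψ y t - p t) ∧
      (∀ t, ‖p t‖ = 1) ∧ ∀ t, p (-t) = p t := by
  obtain ⟨hc, -, -, p, hp, hn⟩ := good_of_BB hB
  refine ⟨p, hp, hn, ?_, ?_⟩
  · have h1 : Null fun t => ee Ψ y t * conj (ee Ψ y t) - (p * star p) t := by
      apply null_mul hn (g := fun t => conj (ee Ψ y t)) (q := star p) _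
        (Complex.continuous_conj.comp hc) (C := 1) (fun t => by
          rw [RCLike.norm_conj, norm_ee])
      convert! hn.conj using 2 with t
      rw [map_sub]
      rfl
    have h2 : Null fun t => ee Ψ y t * conj (ee Ψ y t) - (1 : ℝ →ᵇ ℂ) t := by
      convert! Null.zero using 2 with t
      rw [ee_conj]
      simp
    have h3 := ap_unique (hp.mul hp.star) AP.one h1 h2
    intro t
    have h4 : p t * conj (p t) = 1 := by
      have := congrArg (fun q : ℝ →ᵇ ℂ => q t) h3
      exact this
    rw [Complex.mul_conj, Complex.normSq_eq_norm_sq] at h4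
    have h5 : ‖p t‖ ^ 2 = 1 := by exact_mod_cast h4
    exact (pow_eq_one_iff_of_nonneg (norm_nonneg _) two_ne_zero).1 h5
  · have h1 : Null fun t => ee Ψ y t - (rfn p) t := by
      convert! hn.neg using 2 with t
      rw [rfn_apply]
      unfold ee
      rw [heven]
    have h2 := ap_unique hp.rfn hp h1 hn
    intro t
    have := congrArg (fun q : ℝ →ᵇ ℂ => q t) h2
    exact this

theorem measurable_cav {Ψ : ℝ → ℝ} (hΨ : Continuous Ψ) (n : ℕ) :
    Measurable fun y => cav n (ee Ψ y) := by
  unfold cav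
  apply Measurable.const_mul
  apply Continuous.measurable
  apply intervalIntegral.continuous_parametric_intervalIntegral_of_continuous'
  unfold Function.uncurry ee
  fun_prop

/-- The means of the exponential family vanish almost everywhere. -/
theorem mean_zero {Ψ : ℝ → ℝ} (hΨ : Continuous Ψ) (hinf : Tendsto Ψ (cocompact ℝ) (cocompact ℝ))
    {G : ℝ → ℂ} (hG : ∀ y ∈ Ioo (0 : ℝ) 1, Tendsto (fun n => cav n (ee Ψ y)) atTop (𝓝 (G y))) :
    ∀ᵐ y ∂(volume.restrict (Ioo (0 : ℝ) 1)), G y = 0 := by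
  apply ae_zero_of_weak (Φ := fun n y => cav n (ee Ψ y)) (measurable_cav hΨ) _ hG
  · intro g hg
    -- the inner integral
    set K : ℝ → ℂ := fun t => ∫ y in Ioo (0 : ℝ) 1, ee Ψ y t * g y with hK
    have hKc : Continuous K := by
      apply continuous_of_dominated (bound := fun y => ‖g y‖)
      · intro t
        refine AEStronglyMeasurable.mul ?_ hg.aestronglyMeasurable
        apply Continuous.aestronglyMeasurable
        unfold ee; fun_prop
      · intro t
        apply ae_of_all
        intro y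
        rw [norm_mul, norm_ee, one_mul]
      · exact hg.norm
      · apply ae_of_all
        intro y
        exact (ee_cont hΨ y).mul continuous_const
    have hKb : ∀ t, ‖K t‖ ≤ ∫ y in Ioo (0 : ℝ) 1, ‖g y‖ := by
      intro t
      refine (norm_integral_le_integral_norm _).trans (le_of_eq ?_)
      congr 1
      ext y
      rw [norm_mul, norm_ee, one_mul]
    have hK0 : Tendsto K (cocompact ℝ) (𝓝 0) := (rl_Ioo (g := g)).comp hinf
    have hnull : Null K := Null.of_tendsto hKc hKb hK0
    have h1 := hnull.cav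
    refine h1.congr fun n => ?_
    unfold cav
    rw [hK]
    simp only
    rw [intervalIntegral_integral_swap, ← integral_const_mul]
    · congr 1
      ext y
      rw [intervalIntegral.integral_mul_const]
      ring
    · have h2 : Integrable (fun z : ℝ × ℝ => (1 : ℂ) * g z.2)
          ((volume.restrict (Set.uIoc (-((n : ℝ) + 1)) ((n : ℝ) + 1))).prod
            (volume.restrict (Ioo (0 : ℝ) 1))) := by
        apply Integrable.mul_prod (f := fun _ : ℝ => (1 : ℂ)) (g := g) _ hg
        have : IsFiniteMeasure (volume.restrict (Set.uIoc (-((n : ℝ) + 1)) ((n : ℝ) + 1))) := by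
          rw [Set.uIoc_of_le (by linarith)]
          infer_instance
        exact integrable_const _
      refine h2.mono ?_ ?_
      · have h3 : AEStronglyMeasurable (fun z : ℝ × ℝ => g z.2)
            ((volume.restrict (Set.uIoc (-((n : ℝ) + 1)) ((n : ℝ) + 1))).prod
            (volume.restrict (Ioo (0 : ℝ) 1))) := by
          have := h2.aestronglyMeasurable
          simpa using this
        have h4 : Continuous fun z : ℝ × ℝ => ee Ψ z.2 z.1 := by
          unfold ee; fun_prop
        exact h4.aestronglyMeasurable.mul h3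
      · apply ae_of_all
        intro z
        simp only [Function.uncurry]
        rw [norm_mul, norm_mul, norm_ee, norm_one]
  · intro n y
    refine (norm_cav_le n _).trans ?_
    simp only [norm_ee]
    rw [av_const]

/-- The main obstruction. -/
theorem no_group {Ψ : ℝ → ℝ} (hΨ : Continuous Ψ) (heven : ∀ t, Ψ (-t) = Ψ t)
    (hinf : Tendsto Ψ (cocompact ℝ) (cocompact ℝ)) (hB : ∀ y : ℝ, 0 < y → y < 1 → ee Ψ y ∈ BB) :
    False := by
  classical
  -- the means exist
  have hmean : ∀ y : ℝ, ∃ m : ℂ, y ∈ Ioo (0 : ℝ) 1 →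
      Tendsto (fun n => cav n (ee Ψ y)) atTop (𝓝 m) := by
    intro y
    by_cases hy : y ∈ Ioo (0 : ℝ) 1
    · obtain ⟨-, -, ⟨m, hm⟩, -⟩ := good_of_BB (hB y hy.1 hy.2)
      exact ⟨m, fun _ => hm⟩
    · exact ⟨0, fun h => absurd h hy⟩
  choose G hG using hmean
  have hae := mean_zero hΨ hinf hG
  -- small fractions have nonzero mean
  have hne : ∀ y ∈ Ioo (0 : ℝ) 1, ∃ n : ℕ, 0 < n ∧ G (y / n) ≠ 0 := by
    intro y hy
    obtain ⟨p, hp, hn, hp1, hpe⟩ := ap_part heven (hB y hy.1 hy.2)
    obtain ⟨B, hBd⟩ := root_bound hp hp1 hpe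
    obtain ⟨n, hnB⟩ := exists_nat_gt (max B 0)
    have hn0 : (0 : ℝ) < n := (le_max_right _ _).trans_lt hnB
    have hn0' : 0 < n := by exact_mod_cast hn0
    have hn1 : (1 : ℝ) ≤ n := by exact_mod_cast hn0'
    refine ⟨n, hn0', ?_⟩
    have hyn : y / n ∈ Ioo (0 : ℝ) 1 := by
      refine ⟨div_pos hy.1 hn0, ?_⟩
      rw [div_lt_one hn0]
      exact hy.2.trans_le hn1
    obtain ⟨q, hq, hqn, hq1, hqe⟩ := ap_part heven (hB _ hyn.1 hyn.2)
    -- the root relation
    have hpow : q ^ n = p := by
      have h1 := null_pow hqn (ee_cont hΨ _) (fun t => (norm_ee _ _ _).le) n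
      have h2 : Null fun t => ee Ψ y t - (q ^ n) t := by
        convert! h1 using 2 with t
        rw [ee_pow _ _ _ hn0']
      exact ap_unique (ap_pow hq n) hp h2 hn
    obtain ⟨ω, hω, hclose⟩ := hBd n hn0' q q.continuous (fun t => by
      have := congrArg (fun r : ℝ →ᵇ ℂ => r t) hpow
      exact this)
    -- the mean is close to ω
    have h1 := hG _ hyn
    have h2 : Tendsto (fun k => cav k q) atTop (𝓝 (G (y / n))) := by
      have h3 := h1.sub hqn.cav
      rw [sub_zero] at h3
      refine h3.congr fun k => ?_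
      rw [cav_sub k (ee_cont hΨ _) q.continuous]
      ring
    have h3 : ∀ k, ‖cav k q - ω‖ ≤ B / n := by
      intro k
      have e1 : cav k q - ω = cav k (fun t => q t - ω) := by
        rw [cav_sub k q.continuous continuous_const, cav_const]
      rw [e1]
      refine (norm_cav_le k _).trans ?_
      rw [← av_const k (B / n)]
      exact av_mono k ((q.continuous.sub continuous_const).norm) continuous_const hclose
    have h4 : ‖G (y / n) - ω‖ ≤ B / n :=
      le_of_tendsto (h2.sub_const ω).norm (Eventually.of_forall h3)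
    intro h0
    rw [h0, zero_sub, norm_neg, hω, le_div_iff₀ hn0, one_mul] at h4
    exact absurd h4 (not_le.2 ((le_max_left _ _).trans_lt hnB))
  -- the exceptional set is null
  set N : Set ℝ := {y | y ∈ Ioo (0 : ℝ) 1 ∧ G y ≠ 0} with hN
  have hN0 : volume N = 0 := by
    rw [ae_restrict_iff' measurableSet_Ioo, ae_iff] at hae
    refine measure_mono_null ?_ hae
    intro y hy
    simp only [mem_ofPred_eq, Classical.not_imp]
    exact hy
  have hcover : Ioo (0 : ℝ) 1 ⊆ ⋃ n : ℕ, (fun x => (n : ℝ) * x) '' N := by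
    intro y hy
    obtain ⟨n, hn, hGn⟩ := hne y hy
    have hn0 : (0 : ℝ) < n := by exact_mod_cast hn
    have hn1 : (1 : ℝ) ≤ n := by exact_mod_cast hn
    rw [mem_iUnion]
    refine ⟨n, y / n, ⟨⟨div_pos hy.1 hn0, ?_⟩, hGn⟩, ?_⟩
    · rw [div_lt_one hn0]
      exact hy.2.trans_le hn1
    · simp only
      field_simp
  have hvol : volume (⋃ n : ℕ, (fun x => (n : ℝ) * x) '' N) = 0 := by
    rw [measure_iUnion_null_iff]
    intro n
    have := Measure.addHaar_smul (volume : Measure ℝ) (n : ℝ) N
    have e : (fun x => (n : ℝ) * x) '' N = (n : ℝ) • N := rfl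
    rw [e, this, hN0, mul_zero]
  have h1 := measure_mono_null hcover hvol
  rw [Real.volume_Ioo] at h1
  norm_num at h1

end Pool.Agent.Helper977.L1Semi
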