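import Mathlib
import Pool.Agent.Helper977.L1Semi.AP5

set_option autoImplicit false

open MeasureTheory Set Filter Topology Complex
open scoped ENNReal NNReal BoundedContinuousFunction ComplexConjugate FourierTransform

namespace Pool.Agent.Helper977.L1Semi

/-- Vague limit of the positive parts. -/
theorem vague_pos {u : ℕ → ℝ → ℝ} (hu : ∀ n, Integrable (u n) volume) {C : ℝ}
    (hC : ∀ n, ∫ x, |u n x| ≤ C) :
    ∃ m : Measure ℝ, IsFiniteMeasure m ∧ ∀ φ : ℝ → ℂ, Continuous φ →
      Tendsto φ (cocompact ℝ) (𝓝 0) →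
      Tendsto (fun n => ∫ x, ((u n x).toNNReal) • φ x) (hyperfilter ℕ : Filter ℕ)
        (𝓝 (∫ x, φ x ∂m)) := by
  let _ : MeasurableSpace (OnePoint ℝ) := borel _
  have : BorelSpace (OnePoint ℝ) := ⟨rfl⟩
  have hemb : MeasurableEmbedding (fun x : ℝ => (x : OnePoint ℝ)) :=
    OnePoint.isOpenEmbedding_coe.measurableEmbedding
  set ν : ℕ → Measure ℝ := fun n => volume.withDensity fun x => ((u n x).toNNReal : ℝ≥0∞) with hν
  have hmass : ∀ n, ν n univ ≤ (C.toNNReal : ℝ≥0∞) := by
    intro n
    rw [hν]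
    simp only
    rw [withDensity_apply _ MeasurableSet.univ, Measure.restrict_univ]
    have h1 : ∫⁻ x, ((u n x).toNNReal : ℝ≥0∞) ≤ ∫⁻ x, ENNReal.ofReal |u n x| := by
      apply lintegral_mono
      intro x
      exact ENNReal.ofReal_le_ofReal (le_abs_self _)
    refine h1.trans ?_
    rw [← ofReal_integral_eq_lintegral_ofReal (hu n).abs (ae_of_all _ fun x => abs_nonneg _)]
    exact ENNReal.ofReal_le_ofReal (hC n)
  have hfin : ∀ n, IsFiniteMeasure (ν n) := fun n => ⟨(hmass n).trans_lt ENNReal.coe_lt_top⟩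
  have hfin' : ∀ n, IsFiniteMeasure ((ν n).map (fun x : ℝ => (x : OnePoint ℝ))) := fun n =>
    Measure.isFiniteMeasure_map _ _
  set M : ℕ → FiniteMeasure (OnePoint ℝ) := fun n =>
    ⟨(ν n).map (fun x : ℝ => (x : OnePoint ℝ)), hfin' n⟩ with hM
  have hMmass : ∀ n, (M n).mass ≤ C.toNNReal := by
    intro n
    rw [← ENNReal.coe_le_coe, FiniteMeasure.ennreal_mass]
    show (ν n).map (fun x : ℝ => (x : OnePoint ℝ)) univ ≤ _
    rw [hemb.map_apply, preimage_univ]
    exact hmass n
  obtain ⟨μ, -, hμ⟩ := (isCompact_setOfPred_finiteMeasure_le_of_compactSpace (OnePoint ℝ)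
    C.toNNReal).ultrafilter_le_nhds' ((hyperfilter ℕ).map M) (by
      rw [Ultrafilter.mem_map]
      exact Filter.mem_of_superset Filter.univ_mem fun n _ => hMmass n)
  have hlim : Tendsto M (hyperfilter ℕ : Filter ℕ) (𝓝 μ) := hμ
  refine ⟨(μ : Measure (OnePoint ℝ)).comap (fun x : ℝ => (x : OnePoint ℝ)), ?_, ?_⟩
  · constructor
    rw [hemb.comap_apply]
    exact measure_lt_top _ _
  · intro φ hφ hφ0
    set Φ : C(OnePoint ℝ, ℂ) := OnePoint.continuousMapMk ⟨φ, hφ⟩ 0 (by
      rw [coclosedCompact_eq_cocompact]; exact hφ0) with hΦ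
    have hΦc : ∀ x : ℝ, Φ (x : OnePoint ℝ) = φ x := fun x => rfl
    have hΦi : Φ OnePoint.infty = 0 := rfl
    have h1 := (FiniteMeasure.tendsto_iff_forall_integral_rclike_tendsto ℂ).1 hlim
      (BoundedContinuousFunction.mkOfCompact Φ)
    have e1 : ∀ n, ∫ ω, (BoundedContinuousFunction.mkOfCompact Φ) ω ∂(M n : Measure (OnePoint ℝ)) =
        ∫ x, ((u n x).toNNReal) • φ x := by
      intro n
      show ∫ ω, Φ ω ∂((ν n).map (fun x : ℝ => (x : OnePoint ℝ))) = _
      rw [hemb.integral_map]
      simp only [hΦc]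
      rw [hν]
      simp only
      exact integral_withDensity_eq_integral_smul₀ ((hu n).aestronglyMeasurable.aemeasurable.real_toNNReal) _
    have e2 : ∫ ω, (BoundedContinuousFunction.mkOfCompact Φ) ω ∂(μ : Measure (OnePoint ℝ)) =
        ∫ x, φ x ∂((μ : Measure (OnePoint ℝ)).comap (fun x : ℝ => (x : OnePoint ℝ))) := by
      show ∫ ω, Φ ω ∂(μ : Measure (OnePoint ℝ)) = _
      have h2 := hemb.integral_map (μ := (μ : Measure (OnePoint ℝ)).comap
        (fun x : ℝ => (x : OnePoint ℝ))) Φ
      simp only [hΦc] at h2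
      rw [← h2, hemb.map_comap, setIntegral_eq_integral_of_forall_compl_eq_zero]
      intro z hz
      induction z using OnePoint.rec with
      | infty => exact hΦi
      | coe x => exact absurd ⟨x, rfl⟩ hz
    simp_rw [e1, e2] at h1
    exact h1

/-- Splitting a complex function into four positive parts. -/
theorem split_four {a : ℝ → ℂ} (ha : Integrable a volume) {φ : ℝ → ℂ} (hφ : Continuous φ)
    {D : ℝ} (hD : ∀ x, ‖φ x‖ ≤ D) :
    ∫ x, a x * φ x = (∫ x, ((a x).re.toNNReal) • φ x) - (∫ x, ((-(a x).re).toNNReal) • φ x) +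
      I * ((∫ x, ((a x).im.toNNReal) • φ x) - ∫ x, ((-(a x).im).toNNReal) • φ x) := by
  have hint : ∀ u : ℝ → ℝ, Integrable u volume →
      Integrable (fun x => ((u x).toNNReal) • φ x) volume := by
    intro u hu
    have h1 : Integrable (fun x => |u x| * D) volume := hu.abs.mul_const D
    refine h1.mono' ?_ ?_
    · have h2 : AEMeasurable (fun x => (u x).toNNReal) volume :=
        hu.aestronglyMeasurable.aemeasurable.real_toNNReal
      exact h2.aestronglyMeasurable.smul hφ.aestronglyMeasurable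
    · apply ae_of_all
      intro x
      rw [NNReal.smul_def, norm_smul, Real.norm_of_nonneg (NNReal.coe_nonneg _)]
      apply mul_le_mul _ (hD x) (norm_nonneg _) (abs_nonneg _)
      rw [Real.coe_toNNReal']
      exact max_le (le_abs_self _) (abs_nonneg _)
  have hre : Integrable (fun x => (a x).re) volume := ha.re
  have him : Integrable (fun x => (a x).im) volume := ha.im
  have i1 := hint _ hre
  have i2 := hint _ hre.neg
  have i3 := hint _ him
  have i4 := hint _ him.neg
  simp only [Pi.neg_apply] at i2 i4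
  rw [← integral_sub i1 i2, ← integral_sub i3 i4, ← integral_const_mul, ← integral_add]
  · congr 1
    ext x
    have hsplit : ∀ r : ℝ, ((r.toNNReal : ℝ≥0) : ℝ) - ((-r).toNNReal : ℝ≥0) = r := by
      intro r
      rw [Real.coe_toNNReal', Real.coe_toNNReal']
      rcases le_total r 0 with h | h
      · rw [max_eq_right h, max_eq_left (by linarith)]; ring
      · rw [max_eq_left h, max_eq_right (by linarith)]; ring
    have e1 := hsplit (a x).re
    have e2 := hsplit (a x).im
    simp only [NNReal.smul_def, Complex.real_smul]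
    have e3 : a x = (((a x).re : ℝ) : ℂ) + I * (((a x).im : ℝ) : ℂ) := by
      rw [mul_comm]; exact (Complex.re_add_im (a x)).symm
    nth_rw 1 [e3, ← e1, ← e2]
    push_cast
    ring
  · exact i1.sub i2
  · exact (i3.sub i4).const_mul I

end Pool.Agent.Helper977.L1Semi
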