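import Mathlib
import Pool.Agent.Helper977.L1Semi.AP6

set_option autoImplicit false

open MeasureTheory Set Filter Topology Complex
open scoped ENNReal NNReal BoundedContinuousFunction ComplexConjugate FourierTransform

namespace Pool.Agent.Helper977.L1Semi

theorem fourier_flip {f g : ℝ → ℂ} (hf : Integrable f volume) (hg : Integrable g volume) :
    ∫ x, f x * 𝓕 g x = ∫ x, 𝓕 f x * g x := by
  have h := VectorFourier.integral_fourierIntegral_smul_eq_flip (e := Real.fourierChar)
    (L := innerₗ ℝ) (μ := (volume : Measure ℝ)) (ν := (volume : Measure ℝ))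
    Real.continuous_fourierChar (by exact continuous_inner) hf hg
  simp only [smul_eq_mul] at h
  have e1 : ∀ x, VectorFourier.fourierIntegral Real.fourierChar volume (innerₗ ℝ) f x = 𝓕 f x :=
    fun x => rfl
  have e2 : ∀ x, VectorFourier.fourierIntegral Real.fourierChar volume (innerₗ ℝ).flip g x =
      𝓕 g x := by
    intro x
    show ∫ v, Real.fourierChar (-(inner ℝ x v)) • g v = ∫ v, Real.fourierChar (-(inner ℝ v x)) • g v
    congr 1
    ext v
    rw [real_inner_comm]
  simp only [e1, e2] at h
  exact h.symm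

theorem fourier_measure {g : ℝ → ℂ} (hg : Integrable g volume) (m : Measure ℝ) [IsFiniteMeasure m] :
    ∫ x, 𝓕 g x ∂m = ∫ x, charFun m (-(2 * Real.pi) * x) * g x := by
  have h := VectorFourier.integral_fourierIntegral_smul_eq_flip (e := Real.fourierChar)
    (L := innerₗ ℝ) (μ := (volume : Measure ℝ)) (ν := m) (g := fun _ => (1 : ℂ))
    Real.continuous_fourierChar (by exact continuous_inner) hg (integrable_const _)
  simp only [smul_eq_mul, mul_one] at h
  have e1 : ∀ x, VectorFourier.fourierIntegral Real.fourierChar volume (innerₗ ℝ) g x = 𝓕 g x :=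
    fun x => rfl
  have e2 : ∀ x, VectorFourier.fourierIntegral Real.fourierChar m (innerₗ ℝ).flip
      (fun _ => (1 : ℂ)) x = charFun m (-(2 * Real.pi) * x) := by
    intro x
    rw [charFun_apply_real]
    show ∫ v, Real.fourierChar (-(inner ℝ x v)) • (1 : ℂ) ∂m = _
    congr 1
    ext v
    rw [Circle.smul_def, Real.fourierChar_apply, smul_eq_mul, mul_one]
    congr 1
    have : inner ℝ x v = x * v := by
      simp [mul_comm]
    rw [this]
    push_cast
    ring
  simp only [e1, e2] at h
  rw [h]
  congr 1
  ext x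
  ring

theorem fourier_norm_le {g : ℝ → ℂ} (w : ℝ) : ‖𝓕 g w‖ ≤ ∫ x, ‖g x‖ :=
  VectorFourier.norm_fourierIntegral_le_integral_norm _ _ _ _ _

theorem fourier_cont {g : ℝ → ℂ} (hg : Integrable g volume) : Continuous (𝓕 g) :=
  VectorFourier.fourierIntegral_continuous Real.continuous_fourierChar
    (by exact continuous_inner) hg

/-- Pointwise limits of bounded sequences of Fourier transforms are Fourier–Stieltjes transforms
almost everywhere. -/
theorem vague {a : ℕ → ℝ → ℂ} (ha : ∀ n, Integrable (a n) volume) {C : ℝ}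
    (hC : ∀ n, ∫ x, ‖a n x‖ ≤ C) {h : ℝ → ℂ}
    (hlim : ∀ w, Tendsto (fun n => 𝓕 (a n) w) atTop (𝓝 (h w))) :
    ∃ H ∈ BB, H =ᵐ[volume] h := by
  have hre : ∀ n, ∫ x, |(a n x).re| ≤ C := fun n =>
    (integral_mono (ha n).re.abs (ha n).norm fun x => Complex.abs_re_le_norm _).trans (hC n)
  have him : ∀ n, ∫ x, |(a n x).im| ≤ C := fun n =>
    (integral_mono (ha n).im.abs (ha n).norm fun x => Complex.abs_im_le_norm _).trans (hC n)
  obtain ⟨m1, hm1, h1⟩ := vague_pos (u := fun n x => (a n x).re) (fun n => (ha n).re) hre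
  obtain ⟨m2, hm2, h2⟩ := vague_pos (u := fun n x => -(a n x).re) (fun n => (ha n).re.neg)
    (fun n => by simp only [abs_neg]; exact hre n)
  obtain ⟨m3, hm3, h3⟩ := vague_pos (u := fun n x => (a n x).im) (fun n => (ha n).im) him
  obtain ⟨m4, hm4, h4⟩ := vague_pos (u := fun n x => -(a n x).im) (fun n => (ha n).im.neg)
    (fun n => by simp only [abs_neg]; exact him n)
  set c : ℝ := -(2 * Real.pi) with hc
  set H : ℝ → ℂ := ((fun t => charFun m1 (c * t)) - fun t => charFun m2 (c * t)) +
    I • ((fun t => charFun m3 (c * t)) - fun t => charFun m4 (c * t)) with hH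
  have hHB : H ∈ BB := by
    refine BB.add_mem (BB.sub_mem ?_ ?_) (BB.smul_mem _ (BB.sub_mem ?_ ?_))
    · exact BB_comp_mul c (BB_charFun m1)
    · exact BB_comp_mul c (BB_charFun m2)
    · exact BB_comp_mul c (BB_charFun m3)
    · exact BB_comp_mul c (BB_charFun m4)
  obtain ⟨hHc, ⟨D, hD⟩, -, -⟩ := good_of_BB hHB
  have hhb : ∀ w, ‖h w‖ ≤ C := fun w =>
    le_of_tendsto (hlim w).norm (Eventually.of_forall fun n => (fourier_norm_le w).trans (hC n))
  have hhm : Measurable h :=
    measurable_of_tendsto_metrizable (fun n => (fourier_cont (ha n)).measurable)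
      (tendsto_pi_nhds.2 hlim)
  refine ⟨H, hHB, ?_⟩
  -- the pairing
  have key : ∀ g : ℝ → ℂ, Integrable g volume → ∫ x, h x * g x = ∫ x, H x * g x := by
    intro g hg
    have hgc := fourier_cont hg
    have hg0 : Tendsto (𝓕 g) (cocompact ℝ) (𝓝 0) := Real.zero_at_infty_fourier g
    have k1 : Tendsto (fun n => ∫ x, 𝓕 (a n) x * g x) atTop (𝓝 (∫ x, h x * g x)) := by
      apply tendsto_integral_of_dominated_convergence (fun x => C * ‖g x‖)
      · intro n
        exact (fourier_cont (ha n)).aestronglyMeasurable.mul hg.aestronglyMeasurable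
      · exact hg.norm.const_mul C
      · intro n
        apply ae_of_all
        intro x
        rw [norm_mul]
        exact mul_le_mul_of_nonneg_right ((fourier_norm_le x).trans (hC n)) (norm_nonneg _)
      · apply ae_of_all
        intro x
        exact (hlim x).mul_const _
    have k2 := k1.mono_left Nat.hyperfilter_le_atTop
    have k3 : ∀ n, ∫ x, 𝓕 (a n) x * g x =
        ((∫ x, ((a n x).re.toNNReal) • 𝓕 g x) - (∫ x, ((-(a n x).re).toNNReal) • 𝓕 g x)) +
      I * ((∫ x, ((a n x).im.toNNReal) • 𝓕 g x) - ∫ x, ((-(a n x).im).toNNReal) • 𝓕 g x) := by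
      intro n
      rw [← fourier_flip (ha n) hg]
      exact split_four (ha n) hgc (fun x => fourier_norm_le x)
    have k4 : Tendsto (fun n => ∫ x, 𝓕 (a n) x * g x) (hyperfilter ℕ : Filter ℕ)
        (𝓝 (((∫ x, 𝓕 g x ∂m1) - ∫ x, 𝓕 g x ∂m2) +
          I * ((∫ x, 𝓕 g x ∂m3) - ∫ x, 𝓕 g x ∂m4))) := by
      simp_rw [k3]
      exact ((h1 _ hgc hg0).sub (h2 _ hgc hg0)).add
        (((h3 _ hgc hg0).sub (h4 _ hgc hg0)).const_mul I)
    have k5 := tendsto_nhds_unique k2 k4
    rw [k5, fourier_measure hg, fourier_measure hg, fourier_measure hg, fourier_measure hg]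
    have hi : ∀ (m : Measure ℝ) [IsFiniteMeasure m],
        Integrable (fun x => charFun m (c * x) * g x) volume := by
      intro m hm
      refine hg.bdd_mul (c := m.real univ) ?_ ?_
      · exact ((cont_charFun m).comp (continuous_const.mul continuous_id)).aestronglyMeasurable
      · exact ae_of_all _ fun x => norm_charFun_le _
    rw [← integral_sub (hi m1) (hi m2), ← integral_sub (hi m3) (hi m4), ← integral_const_mul]
    have ia : Integrable (fun x => charFun m1 (c * x) * g x - charFun m2 (c * x) * g x) volume :=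
      (hi m1).sub (hi m2)
    have ib : Integrable (fun x => I * (charFun m3 (c * x) * g x - charFun m4 (c * x) * g x))
        volume := ((hi m3).sub (hi m4)).const_mul I
    rw [← integral_add ia ib]
    congr 1
    ext x
    rw [hH]
    simp only [Pi.add_apply, Pi.sub_apply, Pi.smul_apply, smul_eq_mul]
    ring
  symm
  apply ae_eq_of_forall_setIntegral_eq_of_sigmaFinite
  · intro s _ hs
    have hfs : IsFiniteMeasure (volume.restrict s) := ⟨by rw [Measure.restrict_apply_univ]; exact hs⟩
    apply Integrable.mono' (g := fun _ => C) (integrable_const _) hhm.aestronglyMeasurable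
    exact ae_of_all _ hhb
  · intro s _ hs
    have hfs : IsFiniteMeasure (volume.restrict s) := ⟨by rw [Measure.restrict_apply_univ]; exact hs⟩
    apply Integrable.mono' (g := fun _ => D) (integrable_const _) hHc.aestronglyMeasurable
    exact ae_of_all _ hD
  · intro s hsm hs
    have h5 := key (s.indicator fun _ => 1) (by
      rw [integrable_indicator_iff hsm]
      exact integrableOn_const hs.ne)
    have e : ∀ f : ℝ → ℂ, ∫ x, f x * s.indicator (fun _ => (1 : ℂ)) x = ∫ x in s, f x := by
      intro f
      rw [← integral_indicator hsm]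
      congr 1
      ext x
      by_cases hx : x ∈ s
      · rw [indicator_of_mem hx, indicator_of_mem hx, mul_one]
      · rw [indicator_of_notMem hx, indicator_of_notMem hx, mul_zero]
    rw [e, e] at h5
    exact h5

end Pool.Agent.Helper977.L1Semi
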