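import Mathlib
import Pool.Agent.Helper977.L1Semi.AP7

set_option autoImplicit false

open MeasureTheory Set Filter Topology Complex
open scoped ENNReal NNReal BoundedContinuousFunction ComplexConjugate FourierTransform

namespace Pool.Agent.Helper977.L1Semi

/-- The open right half plane. -/
def HP : Set ℂ := {t | 0 < t.re}

theorem HP_open : IsOpen HP := isOpen_lt continuous_const Complex.continuous_re

theorem HP_convex : Convex ℝ HP := by
  intro x hx y hy a b ha hb hab
  simp only [HP, mem_ofPred_eq, Complex.add_re, Complex.smul_re, smul_eq_mul] at *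
  rcases ha.eq_or_lt with h | h
  · have hb1 : b = 1 := by linarith
    rw [← h, hb1]; simpa using hy
  · have h1 : 0 < a * x.re := mul_pos h hx
    have h2 : 0 ≤ b * y.re := mul_nonneg hb hy.le
    linarith

theorem exp_form {φ : ℂ → ℂ} (hd : DifferentiableOn ℂ φ HP)
    (hm : ∀ s t, s ∈ HP → t ∈ HP → φ (s + t) = φ s * φ t) (h1 : φ 1 ≠ 0) {t : ℂ} (ht : t ∈ HP) :
    φ t = cexp (t * (deriv φ 1 / φ 1)) := by
  have h1m : (1 : ℂ) ∈ HP := by simp [HP]
  have hadd : ∀ s ∈ HP, s + 1 ∈ HP := by
    intro s hs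
    simp only [HP, mem_ofPred_eq, Complex.add_re, Complex.one_re] at *
    linarith
  have hda : ∀ s ∈ HP, DifferentiableAt ℂ φ s := fun s hs => hd.differentiableAt (HP_open.mem_nhds hs)
  set l := deriv φ 1 / φ 1 with hl
  have hder : ∀ s ∈ HP, deriv φ s = l * φ s := by
    intro s hs
    -- two computations of the derivative at s + 1
    have k1 : HasDerivAt (fun z => φ (s + z)) (deriv φ (s + 1)) 1 := by
      have := (hda _ (hadd s hs)).hasDerivAt
      exact this.comp_const_add s 1
    have k2 : HasDerivAt (fun z => φ s * φ z) (φ s * deriv φ 1) 1 :=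
      (hda 1 h1m).hasDerivAt.const_mul (φ s)
    have k3 : (fun z => φ (s + z)) =ᶠ[𝓝 1] fun z => φ s * φ z := by
      filter_upwards [HP_open.mem_nhds h1m] with z hz
      exact hm s z hs hz
    have k4 := (k1.congr_of_eventuallyEq k3.symm).unique k2
    have k5 : HasDerivAt (fun z => φ (z + 1)) (deriv φ (s + 1)) s := by
      have := (hda _ (hadd s hs)).hasDerivAt
      exact this.comp_add_const s 1
    have k6 : HasDerivAt (fun z => φ z * φ 1) (deriv φ s * φ 1) s :=
      (hda s hs).hasDerivAt.mul_const (φ 1)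
    have k7 : (fun z => φ (z + 1)) =ᶠ[𝓝 s] fun z => φ z * φ 1 := by
      filter_upwards [HP_open.mem_nhds hs] with z hz
      exact hm z 1 hz h1m
    have k8 := (k5.congr_of_eventuallyEq k7.symm).unique k6
    rw [k4] at k8
    rw [hl]
    field_simp
    rw [← k8]; ring
  set g : ℂ → ℂ := fun s => φ s * cexp (-(s * l)) with hg
  have hgd : ∀ s ∈ HP, HasDerivAt g 0 s := by
    intro s hs
    have k1 : HasDerivAt (fun z => cexp (-(z * l))) (cexp (-(s * l)) * (-(1 * l))) s :=
      ((hasDerivAt_id s).mul_const l).neg.cexp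
    have k2 := (hda s hs).hasDerivAt.mul k1
    rw [hder s hs] at k2
    convert! k2 using 1
    ring
  have hconst : ∀ s ∈ HP, ∀ r ∈ HP, g s = g r := by
    intro s hs r hr
    apply HP_open.is_const_of_deriv_eq_zero HP_convex.isPreconnected
      (fun z hz => (hgd z hz).differentiableAt.differentiableWithinAt) _ hs hr
    intro z hz
    exact (hgd z hz).deriv
  have h2m : (2 : ℂ) ∈ HP := by simp [HP]
  have hg12 := hconst 1 h1m 2 h2m
  have hphi2 : φ 2 = φ 1 * φ 1 := by
    have := hm 1 1 h1m h1m
    norm_num at this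
    exact this
  have hg1 : g 1 = 1 := by
    have e : g 2 = g 1 * g 1 := by
      rw [hg]
      simp only
      rw [hphi2]
      have : cexp (-(2 * l)) = cexp (-(1 * l)) * cexp (-(1 * l)) := by
        rw [← Complex.exp_add]; congr 1; ring
      rw [this]; ring
    have hne : g 1 ≠ 0 := mul_ne_zero h1 (Complex.exp_ne_zero _)
    rw [e] at hg12
    have := mul_right_cancel₀ hne (show g 1 * g 1 = 1 * g 1 by rw [one_mul]; exact hg12.symm)
    exact this
  have hgt := hconst t ht 1 h1m
  rw [hg1] at hgt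
  have h5 : φ t * cexp (-(t * l)) = 1 := hgt
  have h6 : cexp (t * l) * cexp (-(t * l)) = 1 := by
    rw [← Complex.exp_add]; simp
  have h7 := Complex.exp_ne_zero (-(t * l))
  exact mul_right_cancel₀ h7 (h5.trans h6.symm)

theorem zero_form {φ : ℂ → ℂ} (hm : ∀ s t, s ∈ HP → t ∈ HP → φ (s + t) = φ s * φ t)
    (h1 : φ 1 = 0) {t : ℂ} (ht : t ∈ HP) : φ t = 0 := by
  have hr : ∀ r : ℝ, 0 < r → (r : ℂ) ∈ HP := fun r hr => by simpa [HP] using hr
  have hpow : ∀ (k : ℕ) (r : ℝ), 0 < r → φ (((k : ℝ) + 1) * r : ℝ) = φ r ^ (k + 1) := by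
    intro k r hr0
    induction k with
    | zero => simp
    | succ k ih =>
      have e : ((((k + 1 : ℕ) : ℝ) + 1) * r : ℝ) = ((k : ℝ) + 1) * r + r := by push_cast; ring
      rw [e, Complex.ofReal_add, hm _ _ (hr _ (by positivity)) (hr _ hr0), ih]
      ring
  obtain ⟨n, hn⟩ := exists_nat_one_div_lt (show 0 < t.re from ht)
  have hn0 : (0 : ℝ) < (n : ℝ) + 1 := by positivity
  have h2 := hpow n (1 / ((n : ℝ) + 1)) (by positivity)
  have e : ((n : ℝ) + 1) * (1 / ((n : ℝ) + 1)) = 1 := by field_simp
  rw [e, Complex.ofReal_one, h1] at h2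
  have h3 : φ ((1 / ((n : ℝ) + 1) : ℝ) : ℂ) = 0 := pow_eq_zero_iff (Nat.succ_ne_zero n) |>.1 h2.symm
  have h4 := hm ((1 / ((n : ℝ) + 1) : ℝ) : ℂ) (t - ((1 / ((n : ℝ) + 1) : ℝ) : ℂ))
    (hr _ (by positivity)) (by
      simp only [HP, mem_ofPred_eq, Complex.sub_re, Complex.ofReal_re]
      linarith)
  rw [h3, zero_mul, add_sub_cancel] at h4
  exact h4

theorem int_char {f : ℝ → ℂ} (hf : Integrable f volume) (w : ℝ) :
    Integrable (fun v => Real.fourierChar (-(v * w)) • f v) volume := by
  have h := (Real.fourierIntegral_convergent_iff w).2 hf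
  have e : ∀ v : ℝ, inner ℝ v w = v * w := fun v => by simp [mul_comm]
  simpa only [e] using h

/-- Evaluation of the Fourier transform as a continuous functional. -/
noncomputable def evF (w : ℝ) : Lp ℂ 1 (volume : Measure ℝ) →L[ℂ] ℂ :=
  LinearMap.mkContinuous
    { toFun := fun f => 𝓕 (f : ℝ → ℂ) w
      map_add' := by
        intro f g
        have hf := L1.integrable_coeFn f
        have hg := L1.integrable_coeFn g
        rw [Real.fourier_real_eq, Real.fourier_real_eq, Real.fourier_real_eq, ← integral_add]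
        · apply integral_congr_ae
          filter_upwards [Lp.coeFn_add f g] with x hx
          rw [hx, Pi.add_apply, smul_add]
        · exact int_char hf w
        · exact int_char hg w
      map_smul' := by
        intro c f
        rw [Real.fourier_real_eq, Real.fourier_real_eq, RingHom.id_apply, smul_eq_mul,
          ← integral_const_mul]
        apply integral_congr_ae
        filter_upwards [Lp.coeFn_smul c f] with x hx
        rw [hx, Pi.smul_apply, smul_eq_mul, mul_smul_comm] } 1 (by
      intro f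
      rw [one_mul, L1.norm_eq_integral_norm]
      exact fourier_norm_le w)

/-- Integrable functions with vanishing Fourier transform vanish. -/
theorem fourier_inj {f : ℝ → ℂ} (hf : Integrable f volume) (h : ∀ w, 𝓕 f w = 0) :
    f =ᵐ[volume] 0 := by
  apply ae_eq_zero_of_integral_contDiff_smul_eq_zero hf.locallyIntegrable
  intro g hg hgc
  set G : SchwartzMap ℝ ℂ := (hgc.comp_left (g := fun x : ℝ => (x : ℂ)) (by simp)).toSchwartzMap
    (Complex.ofRealCLM.contDiff.comp hg) with hG
  have hGa : ∀ x, G x = (g x : ℂ) := fun x => rfl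
  set K : SchwartzMap ℝ ℂ := 𝓕⁻ G with hK
  have hKG : 𝓕 (K : ℝ → ℂ) = G := by
    have h1 : 𝓕 K = G := FourierTransform.fourier_fourierInv_eq G
    rw [← SchwartzMap.fourier_coe, h1]
  have h2 := fourier_flip hf K.integrable
  rw [hKG] at h2
  have h3 : ∫ x, 𝓕 f x * K x = 0 := by simp [h]
  rw [h3] at h2
  rw [← h2]
  congr 1
  ext x
  rw [hGa, Complex.real_smul]
  ring

theorem evF_apply (w : ℝ) (f : Lp ℂ 1 (volume : Measure ℝ)) : evF w f = 𝓕 (f : ℝ → ℂ) w := rfl

end Pool.Agent.Helper977.L1Semi
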