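import Mathlib
import Pool.Agent.Helper977.L1Semi.AP8

set_option autoImplicit false

open MeasureTheory Set Filter Topology Complex
open scoped ENNReal NNReal BoundedContinuousFunction ComplexConjugate FourierTransform

namespace Pool.Agent.Helper977.L1Semi

theorem fourier_mul_of_conv {f g k : ℝ → ℂ} (hf : Integrable f volume) (hg : Integrable g volume)
    (h : k =ᵐ[volume] fun x => ∫ y, f (x - y) * g y) (w : ℝ) : 𝓕 k w = 𝓕 f w * 𝓕 g w := by
  have h1 := Real.fourier_mul_convolution_eq hg hf w
  rw [mul_comm, ← h1, Real.fourier_real_eq, Real.fourier_real_eq]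
  apply integral_congr_ae
  filter_upwards [h] with x hx
  rw [hx]
  congr 1
  unfold convolution
  congr 1
  ext y
  rw [ContinuousLinearMap.mul_apply', mul_comm]

/-- No analytic semigroup in `L¹(ℝ)` is bounded on the half disc. -/
theorem main (a : ℂ → Lp ℂ 1 (volume : Measure ℝ)) (hd : DifferentiableOn ℂ a HP)
    (hmul : ∀ s t : ℂ, s ∈ HP → t ∈ HP →
      (a (s + t) : ℝ → ℂ) =ᵐ[volume] fun x => ∫ y, (a s : ℝ → ℂ) (x - y) * (a t : ℝ → ℂ) y)
    (hne : ∃ t ∈ HP, a t ≠ 0) {C : ℝ} (hC : ∀ t ∈ HP, ‖t‖ ≤ 1 → ‖a t‖ ≤ C) : False := by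
  classical
  have h1m : (1 : ℂ) ∈ HP := by simp [HP]
  have hint : ∀ t, Integrable (a t : ℝ → ℂ) volume := fun t => L1.integrable_coeFn (a t)
  -- the Fourier transforms
  have hFm : ∀ w : ℝ, ∀ s t, s ∈ HP → t ∈ HP → evF w (a (s + t)) = evF w (a s) * evF w (a t) := by
    intro w s t hs ht
    rw [evF_apply, evF_apply, evF_apply]
    exact fourier_mul_of_conv (hint s) (hint t) (hmul s t hs ht) w
  have hFd : ∀ w : ℝ, DifferentiableOn ℂ (fun t => evF w (a t)) HP := by
    intro w
    exact (evF w).differentiable.comp_differentiableOn hd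
  set a' : Lp ℂ 1 (volume : Measure ℝ) := deriv a 1 with ha'
  have hFder : ∀ w : ℝ, deriv (fun t => evF w (a t)) 1 = 𝓕 (a' : ℝ → ℂ) w := by
    intro w
    have h2 : HasDerivAt a a' 1 := (hd.differentiableAt (HP_open.mem_nhds h1m)).hasDerivAt
    have h3 := (evF w).hasFDerivAt.comp_hasDerivAt 1 h2
    exact h3.deriv
  set F1 : ℝ → ℂ := 𝓕 (a 1 : ℝ → ℂ) with hF1
  set D1 : ℝ → ℂ := 𝓕 (a' : ℝ → ℂ) with hD1
  have hF1c : Continuous F1 := fourier_cont (hint 1)
  have hD1c : Continuous D1 := fourier_cont (L1.integrable_coeFn _)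
  set U : Set ℝ := {w | F1 w ≠ 0} with hU
  have hUo : IsOpen U := isOpen_ne_fun hF1c continuous_const
  set l : ℝ → ℂ := fun w => D1 w / F1 w with hl
  have hlc : ContinuousOn l U := hD1c.continuousOn.div hF1c.continuousOn fun w hw => hw
  have hUform : ∀ w ∈ U, ∀ t ∈ HP, 𝓕 (a t : ℝ → ℂ) w = cexp (t * l w) := by
    intro w hw t ht
    have h2 := exp_form (hFd w) (hFm w) hw ht
    rw [hFder w] at h2
    exact h2
  have hUzero : ∀ w, w ∉ U → ∀ t ∈ HP, 𝓕 (a t : ℝ → ℂ) w = 0 := by
    intro w hw t ht
    have h0 : evF w (a 1) = 0 := by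
      by_contra h
      exact hw h
    exact zero_form (φ := fun t => evF w (a t)) (hFm w) h0 ht
  have hUne : U.Nonempty := by
    obtain ⟨t, ht, hat⟩ := hne
    by_contra hcon
    rw [not_nonempty_iff_eq_empty] at hcon
    apply hat
    have h2 : (a t : ℝ → ℂ) =ᵐ[volume] 0 := by
      apply fourier_inj (hint t)
      intro w
      apply hUzero w _ t ht
      rw [hcon]
      exact notMem_empty w
    exact (Lp.eq_zero_iff_ae_eq_zero).2 h2
  have hre : ∀ w ∈ U, Real.exp (l w).re = ‖F1 w‖ := by
    intro w hw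
    have h2 := hUform w hw 1 h1m
    rw [one_mul] at h2
    have h3 : F1 w = cexp (l w) := h2
    rw [h3, Complex.norm_exp]
  -- boundary values
  have hB : ∀ y : ℝ, |y| < 1 → ∃ H ∈ BB, ∀ w ∈ U, H w = cexp (I * y * l w) := by
    intro y hy
    set t : ℕ → ℂ := fun n => (((1 - |y|) / ((n : ℝ) + 1) : ℝ) : ℂ) + I * y with ht
    have htre : ∀ n, (t n).re = (1 - |y|) / ((n : ℝ) + 1) := by
      intro n
      show ((((1 - |y|) / ((n : ℝ) + 1) : ℝ) : ℂ) + I * y).re = (1 - |y|) / ((n : ℝ) + 1)
      rw [Complex.add_re, Complex.ofReal_re, Complex.mul_re, Complex.I_re, Complex.I_im,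
        Complex.ofReal_re, Complex.ofReal_im]
      ring
    have htH : ∀ n, t n ∈ HP := by
      intro n
      show 0 < (t n).re
      rw [htre]
      have : 0 < 1 - |y| := by linarith
      positivity
    have htn : ∀ n, ‖t n‖ ≤ 1 := by
      intro n
      rw [ht]
      refine (norm_add_le _ _).trans ?_
      rw [Complex.norm_real, norm_mul, Complex.norm_I, one_mul, Complex.norm_real,
        Real.norm_eq_abs, Real.norm_eq_abs]
      have h2 : 0 < 1 - |y| := by linarith
      have h3 : (1 : ℝ) ≤ (n : ℝ) + 1 := by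
        have : (0 : ℝ) ≤ n := Nat.cast_nonneg n
        linarith
      rw [abs_of_nonneg (by positivity)]
      have h4 : (1 - |y|) / ((n : ℝ) + 1) ≤ 1 - |y| := div_le_self h2.le h3
      linarith
    have htl : Tendsto t atTop (𝓝 (I * y)) := by
      have h2 : Tendsto (fun n : ℕ => (1 - |y|) / ((n : ℝ) + 1)) atTop (𝓝 0) := by
        have h3 := (tendsto_one_div_add_atTop_nhds_zero_nat (𝕜 := ℝ)).const_mul (1 - |y|)
        rw [mul_zero] at h3
        refine h3.congr fun n => ?_
        ring
      have h4 := ((Complex.continuous_ofReal.tendsto _).comp h2).add_const (I * (y : ℂ))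
      rw [Complex.ofReal_zero, zero_add] at h4
      exact h4
    obtain ⟨H, hHB, hHae⟩ := vague (a := fun n => (a (t n) : ℝ → ℂ)) (fun n => hint _) (C := C)
      (fun n => by
        rw [← L1.norm_eq_integral_norm]
        exact hC _ (htH n) (htn n)) (h := fun w => if w ∈ U then cexp (I * y * l w) else 0)
      (fun w => by
        by_cases hw : w ∈ U
        · simp only [if_pos hw]
          have h2 : ∀ n, 𝓕 (a (t n) : ℝ → ℂ) w = cexp (t n * l w) := fun n =>
            hUform w hw _ (htH n)
          simp_rw [h2]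
          have h3 : Continuous fun z : ℂ => cexp (z * l w) := by fun_prop
          exact (h3.tendsto _).comp htl
        · simp only [if_neg hw]
          have h2 : ∀ n, 𝓕 (a (t n) : ℝ → ℂ) w = 0 := fun n => hUzero w hw _ (htH n)
          simp_rw [h2]
          exact tendsto_const_nhds)
    refine ⟨H, hHB, ?_⟩
    have h5 : H =ᵐ[volume.restrict U] fun w => cexp (I * y * l w) := by
      rw [EventuallyEq, ae_restrict_iff' hUo.measurableSet]
      filter_upwards [hHae] with w hw hwU
      rw [hw, if_pos hwU]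
    have h6 : ContinuousOn (fun w => cexp (I * y * l w)) U :=
      (continuousOn_const.mul hlc).cexp
    exact fun w hw => Measure.eqOn_open_of_ae_eq h5 hUo (good_of_BB hHB).1.continuousOn h6 hw
  have hP : ∀ y : ℝ, y ∈ Ioo (0 : ℝ) 1 → ∃ P ∈ BB, ∀ w ∈ U,
      P w = cexp (((y * (2 * (l w).re) : ℝ) : ℂ) * I) := by
    intro y hy
    have hy1 : |y| < 1 := by rw [abs_of_pos hy.1]; exact hy.2
    obtain ⟨H, hH, hHU⟩ := hB y hy1
    obtain ⟨K, hK, hKU⟩ := hB (-y) (by rw [abs_neg]; exact hy1)
    refine ⟨H * fun w => conj (K w), BB_mul hH (BB_conj hK), ?_⟩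
    intro w hw
    simp only [Pi.mul_apply]
    rw [hHU w hw, hKU w hw, ← Complex.exp_conj, ← Complex.exp_add]
    congr 1
    rw [map_mul, map_mul, Complex.conj_I, Complex.conj_ofReal]
    have h2 : l w + conj (l w) = ((2 * (l w).re : ℝ) : ℂ) := Complex.add_conj (l w)
    push_cast at h2 ⊢
    linear_combination (I * (y : ℂ)) * h2
  choose! P hPB hPU using hP
  -- the transform has no zeros
  have hUuniv : U = univ := by
    by_contra hcon
    have hfr : (frontier U).Nonempty := by
      rw [nonempty_iff_ne_empty]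
      intro h0
      rcases isClopen_iff.1 (isClopen_iff_frontier_eq_empty.2 h0) with h | h
      · exact hUne.ne_empty h
      · exact hcon h
    obtain ⟨β, hβ⟩ := hfr
    have hβU : β ∉ U := by
      rw [hUo.frontier_eq] at hβ
      exact hβ.2
    obtain ⟨u, huU, hu⟩ := mem_closure_iff_seq_limit.1 (frontier_subset_closure hβ)
    have hF0 : F1 β = 0 := by
      by_contra h
      exact hβU h
    have h2 : Tendsto (fun n => ‖F1 (u n)‖) atTop (𝓝 0) := by
      have := ((hF1c.tendsto β).comp hu).norm
      rw [hF0, norm_zero] at this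
      exact this
    have h3 : Tendsto (fun n => (l (u n)).re) atTop atBot := by
      rw [← Real.tendsto_exp_comp_nhds_zero]
      refine h2.congr fun n => ?_
      rw [hre _ (huU n)]
    have h4 : Tendsto (fun n => 2 * (l (u n)).re) atTop (cocompact ℝ) :=
      (h3.const_mul_atBot two_pos).mono_right atBot_le_cocompact
    have h5 := ae_zero_of_weak (Φ := fun n y => cexp (((y * (2 * (l (u n)).re) : ℝ) : ℂ) * I))
      (G := fun y => P y β)
      (fun n => by
        apply Continuous.measurable
        fun_prop)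
      (fun n y => (Complex.norm_exp_ofReal_mul_I _).le)
      (fun y hy => by
        have h6 : Continuous (P y) := (good_of_BB (hPB y hy)).1
        refine ((h6.tendsto β).comp hu).congr fun n => ?_
        rw [Function.comp_apply, hPU y hy _ (huU n)])
      (fun g _ => (rl_Ioo (g := g)).comp h4)
    have h7 : ∀ y ∈ Ioo (0 : ℝ) 1, ‖P y β‖ = 1 := by
      intro y hy
      have h6 : Continuous (P y) := (good_of_BB (hPB y hy)).1
      have h8 : Tendsto (fun n => ‖P y (u n)‖) atTop (𝓝 ‖P y β‖) :=
        ((h6.tendsto β).comp hu).norm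
      have h9 : ∀ n, ‖P y (u n)‖ = 1 := by
        intro n
        rw [hPU y hy _ (huU n), Complex.norm_exp_ofReal_mul_I]
      simp_rw [h9] at h8
      exact (tendsto_nhds_unique h8 tendsto_const_nhds)
    rw [ae_restrict_iff' measurableSet_Ioo, ae_iff] at h5
    have h10 : Ioo (0 : ℝ) 1 ⊆ {y | ¬(y ∈ Ioo (0 : ℝ) 1 → P y β = 0)} := by
      intro y hy
      simp only [mem_ofPred_eq, Classical.not_imp]
      refine ⟨hy, fun h => ?_⟩
      have := h7 y hy
      rw [h, norm_zero] at this
      exact zero_ne_one this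
    have h11 := measure_mono_null h10 h5
    rw [Real.volume_Ioo] at h11
    norm_num at h11
  -- the real even exponent
  have hmemU : ∀ w, w ∈ U := fun w => by rw [hUuniv]; trivial
  have hlc' : Continuous l := by
    rw [hUuniv] at hlc
    exact continuousOn_univ.1 hlc
  set R : ℝ → ℝ := fun w => 2 * (l w).re with hR
  have hRc : Continuous R := by
    rw [hR]
    exact continuous_const.mul (Complex.continuous_re.comp hlc')
  have hRlim : Tendsto R (cocompact ℝ) atBot := by
    have h2 : Tendsto (fun w => ‖F1 w‖) (cocompact ℝ) (𝓝 0) := by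
      have := (Real.zero_at_infty_fourier (a 1 : ℝ → ℂ)).norm
      rw [norm_zero] at this
      exact this
    have h3 : Tendsto (fun w => (l w).re) (cocompact ℝ) atBot := by
      rw [← Real.tendsto_exp_comp_nhds_zero]
      refine h2.congr fun w => ?_
      rw [hre _ (hmemU w)]
    exact h3.const_mul_atBot two_pos
  have hneg : Tendsto (fun w : ℝ => -w) (cocompact ℝ) (cocompact ℝ) :=
    (Homeomorph.neg ℝ).isClosedEmbedding.tendsto_cocompact
  apply no_group (Ψ := fun w => R w + R (-w)) (hRc.add (hRc.comp continuous_neg))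
    (fun t => by simp only [neg_neg]; ring)
  · have h2 : Tendsto (fun w => R w + R (-w)) (cocompact ℝ) atBot :=
      hRlim.atBot_add_atBot (hRlim.comp hneg)
    exact h2.mono_right atBot_le_cocompact
  · intro y hy0 hy1
    have hy : y ∈ Ioo (0 : ℝ) 1 := ⟨hy0, hy1⟩
    have h2 : ee (fun w => R w + R (-w)) y = P y * fun w => P y (-1 * w) := by
      ext w
      simp only [Pi.mul_apply]
      rw [hPU y hy _ (hmemU _), hPU y hy _ (hmemU _), ← Complex.exp_add]
      unfold ee
      congr 1
      rw [neg_one_mul]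
      simp only [hR]
      push_cast
      ring
    rw [h2]
    exact BB_mul (hPB y hy) (BB_comp_mul (-1) (hPB y hy))

end Pool.Agent.Helper977.L1Semi
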